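import Pool.Agent.RegPoly.SmallKey

/-!
Five and seven points.
-/

namespace Pool.Agent.RegPoly

open Real

/-- AM-GM for a finite family indexed by `Fin n`. -/
lemma prod_le_avg_pow {n : ℕ} (hn : 0 < n) (x : Fin n → ℝ) (hx : ∀ k, 0 ≤ x k) (M : ℝ)
    (hM : ∑ k, x k ≤ n * M) : ∏ k, x k ≤ M ^ n := by
  have hn' : (0 : ℝ) < n := by exact_mod_cast hn
  have key := Real.geom_mean_le_arith_mean_weighted (Finset.univ : Finset (Fin n))
    (fun _ => (1 : ℝ) / n) x (fun _ _ => by positivity)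
    (by simp; field_simp) (fun k _ => hx k)
  have h1 : ∑ k, (1 : ℝ) / n * x k ≤ M := by
    rw [← Finset.mul_sum]
    rw [one_div, inv_mul_le_iff₀ hn']
    exact hM
  have h2 : ∏ k, x k ^ ((1 : ℝ) / n) ≤ M := key.trans h1
  have h3 : (∏ k, x k ^ ((1 : ℝ) / n)) ^ n = ∏ k, x k := by
    rw [← Finset.prod_pow]
    apply Finset.prod_congr rfl
    intro k _
    rw [← Real.rpow_natCast, ← Real.rpow_mul (hx k)]
    rw [one_div, inv_mul_cancel₀ hn'.ne', Real.rpow_one]
  rw [← h3]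
  exact pow_le_pow_left₀ (Finset.prod_nonneg (fun k _ => Real.rpow_nonneg (hx k) _)) h2 n

lemma prod5 (f : Fin 5 → Fin 5 → ℝ) (hf : ∀ i j, f i j = f j i) :
    ∏ i : Fin 5, ∏ j ∈ Finset.Ioi i, f i j
      = (∏ k : Fin 5, f (k + 1) k) * (∏ k : Fin 5, f (k + 2) k) := by
  have e0 : (Finset.Ioi (0 : Fin 5)) = {1, 2, 3, 4} := by decide
  have e1 : (Finset.Ioi (1 : Fin 5)) = {2, 3, 4} := by decide
  have e2 : (Finset.Ioi (2 : Fin 5)) = {3, 4} := by decide
  have e3 : (Finset.Ioi (3 : Fin 5)) = {4} := by decide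
  have e4 : (Finset.Ioi (4 : Fin 5)) = ∅ := by decide
  simp only [Fin.prod_univ_five, e0, e1, e2, e3, e4]
  rw [Finset.prod_insert (by decide), Finset.prod_insert (by decide),
    Finset.prod_insert (by decide), Finset.prod_singleton,
    Finset.prod_insert (by decide), Finset.prod_insert (by decide), Finset.prod_singleton,
    Finset.prod_insert (by decide), Finset.prod_singleton, Finset.prod_singleton,
    Finset.prod_empty]
  have a1 : ((0 : Fin 5) + 1) = 1 := rfl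
  have a2 : ((1 : Fin 5) + 1) = 2 := rfl
  have a3 : ((2 : Fin 5) + 1) = 3 := rfl
  have a4 : ((3 : Fin 5) + 1) = 4 := rfl
  have a5 : ((4 : Fin 5) + 1) = 0 := rfl
  have b1 : ((0 : Fin 5) + 2) = 2 := rfl
  have b2 : ((1 : Fin 5) + 2) = 3 := rfl
  have b3 : ((2 : Fin 5) + 2) = 4 := rfl
  have b4 : ((3 : Fin 5) + 2) = 0 := rfl
  have b5 : ((4 : Fin 5) + 2) = 1 := rfl
  rw [a1, a2, a3, a4, a5, b1, b2, b3, b4, b5]
  rw [hf 1 0, hf 2 1, hf 3 2, hf 4 3, hf 2 0, hf 3 1, hf 4 2]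
  ring

lemma prod7 (f : Fin 7 → Fin 7 → ℝ) (hf : ∀ i j, f i j = f j i) :
    ∏ i : Fin 7, ∏ j ∈ Finset.Ioi i, f i j
      = (∏ k : Fin 7, f (k + 1) k) * (∏ k : Fin 7, f (k + 2) k) * (∏ k : Fin 7, f (k + 3) k) := by
  have e0 : (Finset.Ioi (0 : Fin 7)) = {1, 2, 3, 4, 5, 6} := by decide
  have e1 : (Finset.Ioi (1 : Fin 7)) = {2, 3, 4, 5, 6} := by decide
  have e2 : (Finset.Ioi (2 : Fin 7)) = {3, 4, 5, 6} := by decide
  have e3 : (Finset.Ioi (3 : Fin 7)) = {4, 5, 6} := by decide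
  have e4 : (Finset.Ioi (4 : Fin 7)) = {5, 6} := by decide
  have e5 : (Finset.Ioi (5 : Fin 7)) = {6} := by decide
  have e6 : (Finset.Ioi (6 : Fin 7)) = ∅ := by decide
  simp only [Fin.prod_univ_seven, e0, e1, e2, e3, e4, e5, e6]
  rw [Finset.prod_insert (by decide), Finset.prod_insert (by decide),
    Finset.prod_insert (by decide), Finset.prod_insert (by decide),
    Finset.prod_insert (by decide), Finset.prod_singleton,
    Finset.prod_insert (by decide), Finset.prod_insert (by decide),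
    Finset.prod_insert (by decide), Finset.prod_insert (by decide), Finset.prod_singleton,
    Finset.prod_insert (by decide), Finset.prod_insert (by decide),
    Finset.prod_insert (by decide), Finset.prod_singleton,
    Finset.prod_insert (by decide), Finset.prod_insert (by decide), Finset.prod_singleton,
    Finset.prod_insert (by decide), Finset.prod_singleton, Finset.prod_singleton,
    Finset.prod_empty]
  have a0 : ((0 : Fin 7) + 1) = 1 := rfl
  have a1 : ((1 : Fin 7) + 1) = 2 := rfl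
  have a2 : ((2 : Fin 7) + 1) = 3 := rfl
  have a3 : ((3 : Fin 7) + 1) = 4 := rfl
  have a4 : ((4 : Fin 7) + 1) = 5 := rfl
  have a5 : ((5 : Fin 7) + 1) = 6 := rfl
  have a6 : ((6 : Fin 7) + 1) = 0 := rfl
  have b0 : ((0 : Fin 7) + 2) = 2 := rfl
  have b1 : ((1 : Fin 7) + 2) = 3 := rfl
  have b2 : ((2 : Fin 7) + 2) = 4 := rfl
  have b3 : ((3 : Fin 7) + 2) = 5 := rfl
  have b4 : ((4 : Fin 7) + 2) = 6 := rfl
  have b5 : ((5 : Fin 7) + 2) = 0 := rfl
  have b6 : ((6 : Fin 7) + 2) = 1 := rfl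
  have c0 : ((0 : Fin 7) + 3) = 3 := rfl
  have c1 : ((1 : Fin 7) + 3) = 4 := rfl
  have c2 : ((2 : Fin 7) + 3) = 5 := rfl
  have c3 : ((3 : Fin 7) + 3) = 6 := rfl
  have c4 : ((4 : Fin 7) + 3) = 0 := rfl
  have c5 : ((5 : Fin 7) + 3) = 1 := rfl
  have c6 : ((6 : Fin 7) + 3) = 2 := rfl
  rw [a0, a1, a2, a3, a4, a5, a6, b0, b1, b2, b3, b4, b5, b6, c0, c1, c2, c3, c4, c5, c6]
  rw [hf 1 0, hf 2 1, hf 3 2, hf 4 3, hf 5 4, hf 6 5, hf 2 0, hf 3 1, hf 4 2, hf 5 3, hf 6 4,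
    hf 3 0, hf 4 1, hf 5 2, hf 6 3]
  ring

/-- The vertices of the regular `n`-gon of circumradius `1 / cos (π / 2n)`. -/
noncomputable def reg (n : ℕ) (i : Fin n) : ℂ :=
  ((1 / Real.cos (Real.pi / (2 * (n : ℝ))) : ℝ) : ℂ) *
    Complex.exp (2 * (Real.pi : ℂ) * Complex.I * (i.val : ℂ) / (n : ℂ))

lemma reg_dist {n : ℕ} (hn : 2 ≤ n) (i j : Fin n) (h : i.val ≤ j.val) :
    ‖reg n i - reg n j‖
      = 2 * (1 / Real.cos (Real.pi / (2 * (n : ℝ)))) * Real.sin (π * ((j.val : ℝ) - i.val) / n) := by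
  have hn' : (0 : ℝ) < n := by positivity
  have hcos : 0 < Real.cos (Real.pi / (2 * (n : ℝ))) := by
    apply Real.cos_pos_of_mem_Ioo
    constructor
    · have : 0 < Real.pi / (2 * (n : ℝ)) := by positivity
      linarith [Real.pi_pos]
    · rw [div_lt_div_iff₀ (by positivity) (by norm_num)]
      have : (2 : ℝ) ≤ n := by exact_mod_cast hn
      nlinarith [Real.pi_pos]
  unfold reg
  rw [← mul_sub, norm_mul, Complex.norm_real, Real.norm_eq_abs, abs_of_pos (by positivity)]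
  have e1 : ∀ k : Fin n, Complex.exp (2 * (Real.pi : ℂ) * Complex.I * (k.val : ℂ) / (n : ℂ))
      = Complex.exp (((2 * π * k.val / n : ℝ) : ℂ) * Complex.I) := by
    intro k; congr 1; push_cast; ring
  rw [e1, e1, norm_sub_rev, norm_exp_sub_exp]
  · rw [show (2 * π * (j.val : ℝ) / n - 2 * π * (i.val : ℝ) / n) / 2
      = π * ((j.val : ℝ) - i.val) / n by ring]
    ring
  · apply div_le_div_of_nonneg_right _ hn'.le
    apply mul_le_mul_of_nonneg_left _ (by positivity)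
    exact_mod_cast h
  · rw [← sub_div, ← mul_sub, div_le_iff₀ hn']
    have h1 : (j.val : ℝ) - i.val ≤ n := by
      have h2 : (j.val : ℝ) ≤ n := by exact_mod_cast j.2.le
      have h3 : (0 : ℝ) ≤ i.val := by positivity
      linarith
    nlinarith [Real.pi_pos]


/-- Arguments of the quotients of consecutive sides of a closed polygon. -/
lemma sum_arg_ge {n : ℕ} [NeZero n] (v : Fin n → ℂ) (hv : ∀ k, v k ≠ 0)
    (hpos : ∀ k, 0 < (v (k + 1) / v k).arg) :
    2 * π ≤ ∑ k, (v (k + 1) / v k).arg := by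
  have hprod : ∏ k, (v (k + 1) / v k) = 1 := by
    rw [Finset.prod_div_distrib]
    have : ∏ k, v (k + 1) = ∏ k, v k := Equiv.prod_comp (Equiv.addRight (1 : Fin n)) v
    rw [this]
    exact div_self (Finset.prod_ne_zero_iff.mpr (fun k _ => hv k))
  have hexp : Complex.exp ((∑ k, (v (k + 1) / v k).arg : ℝ) * Complex.I) = 1 := by
    have h1 : ∀ w : ℂ, w ≠ 0 → Complex.exp ((w.arg : ℝ) * Complex.I) = w / ‖w‖ := by
      intro w hw
      have h2 := Complex.norm_mul_exp_arg_mul_I w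
      rw [eq_div_iff (by simpa using hw)]
      rw [mul_comm]; exact h2
    push_cast
    rw [Finset.sum_mul, Complex.exp_sum]
    have h2 : ∀ k ∈ (Finset.univ : Finset (Fin n)),
        Complex.exp (((v (k + 1) / v k).arg : ℂ) * Complex.I)
        = (v (k + 1) / v k) / ‖v (k + 1) / v k‖ :=
      fun k _ => h1 _ (div_ne_zero (hv _) (hv _))
    rw [Finset.prod_congr rfl h2, Finset.prod_div_distrib, hprod]
    have h3 : ∏ k, ((‖v (k + 1) / v k‖ : ℝ) : ℂ) = 1 := by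
      rw [← Complex.ofReal_prod, ← norm_prod, hprod]; simp
    rw [h3, div_one]
  rw [Complex.exp_eq_one_iff] at hexp
  obtain ⟨N, hN⟩ := hexp
  have hS : (∑ k, (v (k + 1) / v k).arg) = N * (2 * π) := by
    have h1 : ((∑ k, (v (k + 1) / v k).arg : ℝ) : ℂ) * Complex.I
        = ((N * (2 * π) : ℝ) : ℂ) * Complex.I := by
      rw [hN]; push_cast; ring
    have h2 := mul_right_cancel₀ Complex.I_ne_zero h1
    exact_mod_cast h2
  have hSpos : 0 < ∑ k, (v (k + 1) / v k).arg := by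
    apply Finset.sum_pos (fun k _ => hpos k)
    exact ⟨0, Finset.mem_univ _⟩
  rw [hS] at hSpos ⊢
  have hpi := Real.pi_pos
  have hN1 : (1 : ℝ) ≤ N := by
    have : 0 < (N : ℝ) := by
      by_contra hcon
      push Not at hcon
      nlinarith
    exact_mod_cast (by exact_mod_cast this : 0 < N)
  nlinarith

/-- Law of cosines for two consecutive sides. -/
lemma norm_add_sq_arg {v w : ℂ} (hv : v ≠ 0) (hw : w ≠ 0) :
    ‖v + w‖ ^ 2 = (‖v‖ + ‖w‖) ^ 2 - 4 * (‖v‖ * ‖w‖) * Real.sin ((w / v).arg / 2) ^ 2 := by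
  have h1 : Real.sin ((w / v).arg / 2) ^ 2 = (1 - Real.cos (w / v).arg) / 2 := by
    have h2 := Real.cos_two_mul ((w / v).arg / 2)
    rw [show 2 * ((w / v).arg / 2) = (w / v).arg by ring] at h2
    nlinarith [Real.sin_sq_add_cos_sq ((w / v).arg / 2)]
  have h2 : Real.cos (w / v).arg = (w / v).re / ‖w / v‖ :=
    Complex.cos_arg (div_ne_zero hw hv)
  have h3 : (w / v).re / ‖w / v‖ * (‖v‖ * ‖w‖) = (w * (starRingEnd ℂ) v).re := by
    have hnv : (0 : ℝ) < ‖v‖ := norm_pos_iff.mpr hv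
    have hnw : (0 : ℝ) < ‖w‖ := norm_pos_iff.mpr hw
    have e : w * (starRingEnd ℂ) v = (w / v) * ((‖v‖ ^ 2 : ℝ) : ℂ) := by
      rw [div_mul_eq_mul_div, eq_div_iff hv, mul_assoc]
      congr 1
      rw [mul_comm, Complex.mul_conj, Complex.normSq_eq_norm_sq]
    rw [e, Complex.re_mul_ofReal, norm_div]
    field_simp
  have h4 : ‖v + w‖ ^ 2 = ‖v‖ ^ 2 + ‖w‖ ^ 2 + 2 * (w * (starRingEnd ℂ) v).re := by
    rw [← Complex.normSq_eq_norm_sq, ← Complex.normSq_eq_norm_sq, ← Complex.normSq_eq_norm_sq,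
      Complex.normSq_add]
    have : (v * (starRingEnd ℂ) w).re = (w * (starRingEnd ℂ) v).re := by
      simp [Complex.mul_re]; ring
    rw [this]
  rw [h1, h2, h4, ← h3]
  ring

/-- Two consecutive sides of lengths `s₁, s₂` with turning angle `ε`, and the two-step chord. -/
lemma two_chord {v w : ℂ} (hv : v ≠ 0) (hw : w ≠ 0) (harg : 0 ≤ (w / v).arg) :
    (‖v‖ * ‖w‖) * ‖v + w‖ ^ 2
      ≤ (2 * ((‖v‖ + ‖w‖) / 2) ^ 2
          * (cos (π / 7) * exp (-(tan (π / 7) * ((w / v).arg / 2 - π / 7))))) ^ 2 := by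
  have hnv : (0 : ℝ) < ‖v‖ := norm_pos_iff.mpr hv
  have hnw : (0 : ℝ) < ‖w‖ := norm_pos_iff.mpr hw
  set x : ℝ := (‖v‖ + ‖w‖) / 2 with hx
  have hxpos : 0 < x := by positivity
  set y : ℝ := ‖v‖ * ‖w‖ / x ^ 2 with hy
  have hy0 : 0 ≤ y := by positivity
  have hy1 : y ≤ 1 := by
    rw [hy, div_le_one (by positivity), hx]
    nlinarith [sq_nonneg (‖v‖ - ‖w‖)]
  have hyx : ‖v‖ * ‖w‖ = y * x ^ 2 := by rw [hy]; field_simp
  have key := key_seven (ε := (w / v).arg) harg (Complex.arg_le_pi _) hy0 hy1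
  rw [norm_add_sq_arg hv hw, hyx, show ‖v‖ + ‖w‖ = 2 * x by rw [hx]; ring]
  have e : y * x ^ 2 * ((2 * x) ^ 2 - 4 * (y * x ^ 2) * sin ((w / v).arg / 2) ^ 2)
      = (2 * x ^ 2) ^ 2 * (y * (1 - y * sin ((w / v).arg / 2) ^ 2)) := by ring
  rw [e, mul_pow (2 * x ^ 2)]
  exact mul_le_mul_of_nonneg_left key (by positivity)

lemma orient_eq_im (a b c : ℂ) : orient a b c = ((c - b) * (starRingEnd ℂ) (b - a)).im := by
  simp [orient, Complex.mul_im]; ring

lemma orient_cyc (a b c : ℂ) : orient a b c = orient b c a := by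
  simp [orient]; ring

lemma arg_pos_of_orient {a b c : ℂ} (h : 0 < orient a b c) :
    0 < ((c - b) / (b - a)).arg := by
  have hne : b - a ≠ 0 := by
    intro h0
    rw [orient_eq_im, h0] at h
    simp at h
  have him : 0 < ((c - b) / (b - a)).im := by
    have e : (c - b) / (b - a) = ((c - b) * (starRingEnd ℂ) (b - a)) / ((‖b - a‖ ^ 2 : ℝ) : ℂ) := by
      rw [div_eq_div_iff hne (by
        have : (0 : ℝ) < ‖b - a‖ ^ 2 := by positivity
        exact_mod_cast this.ne')]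
      rw [mul_assoc]
      congr 1
      rw [mul_comm, Complex.mul_conj, Complex.normSq_eq_norm_sq]
    rw [e, Complex.div_ofReal_im]
    rw [orient_eq_im] at h
    positivity
  have h0 : 0 ≤ ((c - b) / (b - a)).arg := Complex.arg_nonneg_iff.mpr him.le
  rcases h0.eq_or_lt with he | hlt
  · exfalso
    have : ((c - b) / (b - a)).arg = 0 := he.symm
    rw [Complex.arg_eq_zero_iff] at this
    linarith [this.2]
  · exact hlt


lemma five_bound (z : Fin 5 → ℂ) (hd : ∀ i j, ‖z i - z j‖ ≤ 2)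
    (hper : ∑ k, ‖z (k + 1) - z k‖ ≤ (2 * 2) * ((5 : ℝ) * sin (π / (2 * 5)))) :
    pairProd z ≤ (4 * sin (π / 10)) ^ 5 * 2 ^ 5 := by
  unfold pairProd
  rw [prod5 (fun i j => ‖z i - z j‖) (fun i j => norm_sub_rev _ _)]
  have h1 : ∏ k : Fin 5, ‖z (k + 1) - z k‖ ≤ (4 * sin (π / 10)) ^ 5 := by
    apply prod_le_avg_pow (by norm_num) _ (fun k => norm_nonneg _)
    rw [show (π / 10) = π / (2 * 5) by norm_num]
    push_cast
    linarith
  have h2 : ∏ k : Fin 5, ‖z (k + 2) - z k‖ ≤ 2 ^ 5 := by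
    apply prod_le_avg_pow (by norm_num) _ (fun k => norm_nonneg _)
    calc ∑ k : Fin 5, ‖z (k + 2) - z k‖ ≤ ∑ _k : Fin 5, (2 : ℝ) :=
          Finset.sum_le_sum (fun k _ => hd _ _)
      _ = _ := by simp
  exact mul_le_mul h1 h2 (Finset.prod_nonneg (fun _ _ => norm_nonneg _))
    (pow_nonneg (mul_nonneg (by norm_num) (sin_nonneg_of_nonneg_of_le_pi (by positivity)
      (by linarith [pi_pos]))) 5)

lemma convexPos7_orient {z : Fin 7 → ℂ} (hc : ConvexPos z) (k : Fin 7) :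
    0 < orient (z k) (z (k + 1)) (z (k + 1 + 1)) := by
  fin_cases k
  · exact hc 0 1 2 (by decide) (by decide)
  · exact hc 1 2 3 (by decide) (by decide)
  · exact hc 2 3 4 (by decide) (by decide)
  · exact hc 3 4 5 (by decide) (by decide)
  · exact hc 4 5 6 (by decide) (by decide)
  · have := hc 0 5 6 (by decide) (by decide)
    rw [orient_cyc] at this
    exact this
  · have := hc 0 1 6 (by decide) (by decide)
    rw [orient_cyc, orient_cyc] at this
    exact this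

lemma seven_bound (z : Fin 7 → ℂ) (hd : ∀ i j, ‖z i - z j‖ ≤ 2) (hc : ConvexPos z)
    (hper : ∑ k, ‖z (k + 1) - z k‖ ≤ (2 * 2) * ((7 : ℝ) * sin (π / (2 * 7)))) :
    pairProd z ≤ (2 ^ 7 * ((4 * sin (π / 14)) ^ 7) ^ 2 * cos (π / 7) ^ 7) * 2 ^ 7 := by
  unfold pairProd
  rw [prod7 (fun i j => ‖z i - z j‖) (fun i j => norm_sub_rev _ _)]
  have hs0 : 0 ≤ sin (π / 14) :=
    sin_nonneg_of_nonneg_of_le_pi (by positivity) (by linarith [pi_pos])
  have hcpos : 0 < cos (π / 7) := cos_pos_of_mem_Ioo ⟨by linarith [pi_pos], by linarith [pi_pos]⟩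
  have h3 : ∏ k : Fin 7, ‖z (k + 3) - z k‖ ≤ 2 ^ 7 := by
    apply prod_le_avg_pow (by norm_num) _ (fun k => norm_nonneg _)
    calc ∑ k : Fin 7, ‖z (k + 3) - z k‖ ≤ ∑ _k : Fin 7, (2 : ℝ) :=
          Finset.sum_le_sum (fun k _ => hd _ _)
      _ = _ := by simp
  refine mul_le_mul ?_ h3 (Finset.prod_nonneg (fun _ _ => norm_nonneg _)) (by positivity)
  -- sides and two-step chords
  set v : Fin 7 → ℂ := fun k => z (k + 1) - z k with hv
  have hor := convexPos7_orient hc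
  have hv0 : ∀ k, v k ≠ 0 := by
    intro k h0
    have := hor k
    rw [orient_eq_im] at this
    rw [show z (k + 1) - z k = 0 from h0] at this
    simp at this
  have harg : ∀ k, 0 < (v (k + 1) / v k).arg := fun k => arg_pos_of_orient (hor k)
  have hsum := sum_arg_ge v hv0 harg
  set ε : Fin 7 → ℝ := fun k => (v (k + 1) / v k).arg with hε
  have ht : ∀ k : Fin 7, z (k + 2) - z k = v k + v (k + 1) := by
    intro k
    simp only [hv]
    rw [show k + 2 = k + 1 + 1 by rw [add_assoc]; rfl]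
    ring
  -- product of squares
  set A : Fin 7 → ℝ := fun k => 2 * ((‖v k‖ + ‖v (k + 1)‖) / 2) ^ 2 with hA
  set E : Fin 7 → ℝ := fun k => cos (π / 7) * exp (-(tan (π / 7) * (ε k / 2 - π / 7))) with hE
  have hstep : ∀ k, (‖v k‖ * ‖v (k + 1)‖) * ‖v k + v (k + 1)‖ ^ 2 ≤ (A k * E k) ^ 2 :=
    fun k => two_chord (hv0 k) (hv0 (k + 1)) (harg k).le
  have hsq : ((∏ k : Fin 7, ‖v k‖) * (∏ k : Fin 7, ‖v k + v (k + 1)‖)) ^ 2
      ≤ (∏ k, A k * E k) ^ 2 := by
    have e1 : ((∏ k : Fin 7, ‖v k‖) * (∏ k : Fin 7, ‖v k + v (k + 1)‖)) ^ 2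
        = ∏ k : Fin 7, (‖v k‖ * ‖v (k + 1)‖) * ‖v k + v (k + 1)‖ ^ 2 := by
      rw [Finset.prod_mul_distrib, Finset.prod_mul_distrib, Finset.prod_pow]
      have : ∏ k : Fin 7, ‖v (k + 1)‖ = ∏ k : Fin 7, ‖v k‖ :=
        Equiv.prod_comp (Equiv.addRight (1 : Fin 7)) (fun k => ‖v k‖)
      rw [this]; ring
    rw [e1, ← Finset.prod_pow]
    exact Finset.prod_le_prod (fun k _ => by positivity) (fun k _ => hstep k)
  have hAE : 0 ≤ ∏ k, A k * E k := by
    apply Finset.prod_nonneg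
    intro k _
    have : 0 < E k := by rw [hE]; exact mul_pos hcpos (exp_pos _)
    have : 0 ≤ A k := by simp only [hA]; positivity
    positivity
  have hle : (∏ k : Fin 7, ‖v k‖) * (∏ k : Fin 7, ‖v k + v (k + 1)‖) ≤ ∏ k, A k * E k :=
    (pow_le_pow_iff_left₀ (by positivity) hAE (by norm_num)).mp hsq
  have hlhs : (∏ k : Fin 7, ‖z (k + 1) - z k‖) * (∏ k : Fin 7, ‖z (k + 2) - z k‖)
      = (∏ k : Fin 7, ‖v k‖) * (∏ k : Fin 7, ‖v k + v (k + 1)‖) := by
    congr 1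
    apply Finset.prod_congr rfl
    intro k _
    rw [ht k]
  rw [hlhs]
  refine hle.trans ?_
  rw [Finset.prod_mul_distrib]
  have hAprod : ∏ k, A k ≤ 2 ^ 7 * ((4 * sin (π / 14)) ^ 7) ^ 2 := by
    have e : ∏ k, A k = 2 ^ 7 * (∏ k : Fin 7, (‖v k‖ + ‖v (k + 1)‖) / 2) ^ 2 := by
      simp only [hA]
      rw [Finset.prod_mul_distrib, Finset.prod_pow]
      simp
    rw [e]
    apply mul_le_mul_of_nonneg_left _ (by positivity)
    apply pow_le_pow_left₀ (by positivity)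
    apply prod_le_avg_pow (by norm_num) _ (fun k => by positivity)
    rw [← Finset.sum_div, Finset.sum_add_distrib]
    have : ∑ k : Fin 7, ‖v (k + 1)‖ = ∑ k : Fin 7, ‖v k‖ :=
      Equiv.sum_comp (Equiv.addRight (1 : Fin 7)) (fun k => ‖v k‖)
    rw [this]
    have h4 : ∑ k : Fin 7, ‖v k‖ ≤ (2 * 2) * ((7 : ℝ) * sin (π / (2 * 7))) := hper
    rw [show (π / 14) = π / (2 * 7) by norm_num]
    push_cast
    linarith
  have hEprod : ∏ k, E k ≤ cos (π / 7) ^ 7 := by
    have e : ∏ k, E k = cos (π / 7) ^ 7 * exp (-(tan (π / 7) * ((∑ k, ε k) / 2 - π))) := by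
      simp only [hE]
      rw [Finset.prod_mul_distrib, ← exp_sum]
      congr 1
      · simp
      · congr 1
        have e7 : ∑ _k : Fin 7, (π / 7) = π := by
          rw [Finset.sum_const]; simp; ring
        rw [Finset.sum_neg_distrib, ← Finset.mul_sum, Finset.sum_sub_distrib, ← Finset.sum_div, e7]
    rw [e]
    have h5 : exp (-(tan (π / 7) * ((∑ k, ε k) / 2 - π))) ≤ 1 := by
      rw [exp_le_one_iff]
      have := tan_pi_div_seven_bounds.1
      have h6 : 0 ≤ (∑ k, ε k) / 2 - π := by linarith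
      nlinarith
    calc cos (π / 7) ^ 7 * exp (-(tan (π / 7) * ((∑ k, ε k) / 2 - π)))
        ≤ cos (π / 7) ^ 7 * 1 := mul_le_mul_of_nonneg_left h5 (by positivity)
      _ = _ := mul_one _
  have hEpos : 0 ≤ ∏ k, E k := Finset.prod_nonneg (fun k _ => by
    rw [hE]; exact (mul_pos hcpos (exp_pos _)).le)
  exact mul_le_mul hAprod hEprod hEpos (by positivity)

end Pool.Agent.RegPoly
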