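import Pool.Agent.RegPoly.Convex

/-!
Reduction of the maximal-product problem to strictly convex polygons whose perimeter obeys
Reinhardt's bound.
-/

namespace Pool.Agent.RegPoly

open Finset Complex

/-- The product of the pairwise distances. -/
noncomputable def pairProd {n : ℕ} (z : Fin n → ℂ) : ℝ :=
  ∏ i : Fin n, ∏ j ∈ Finset.Ioi i, ‖z i - z j‖

lemma pairProd_nonneg {n : ℕ} (z : Fin n → ℂ) : 0 ≤ pairProd z :=
  Finset.prod_nonneg (fun _ _ => Finset.prod_nonneg (fun _ _ => norm_nonneg _))

lemma pairProd_eq_det {n : ℕ} (z : Fin n → ℂ) :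
    pairProd z = ‖(Matrix.vandermonde z).det‖ := by
  rw [Matrix.det_vandermonde, norm_prod]
  apply Finset.prod_congr rfl
  intro i _
  rw [norm_prod]
  exact Finset.prod_congr rfl (fun j _ => norm_sub_rev _ _)

lemma pairProd_perm {n : ℕ} (z : Fin n → ℂ) (σ : Equiv.Perm (Fin n)) :
    pairProd (z ∘ σ) = pairProd z := by
  rw [pairProd_eq_det, pairProd_eq_det]
  have : Matrix.vandermonde (z ∘ σ) = (Matrix.vandermonde z).submatrix σ id := by
    ext i j
    simp [Matrix.vandermonde_apply]
  rw [this, Matrix.det_permute, norm_mul]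
  rcases Int.units_eq_one_or (Equiv.Perm.sign σ) with h | h <;> simp [h]

lemma continuous_pairProd {n : ℕ} : Continuous (pairProd : (Fin n → ℂ) → ℝ) := by
  unfold pairProd
  fun_prop

lemma pairProd_sub_const {n : ℕ} (z : Fin n → ℂ) (c : ℂ) :
    pairProd (fun i => z i - c) = pairProd z := by
  unfold pairProd
  simp

/-- A maximiser exists. -/
lemma exists_maximiser (m : ℕ) (D : ℝ) (hD : 0 ≤ D) :
    ∃ z : Fin (m + 1) → ℂ, (∀ i j, ‖z i - z j‖ ≤ D) ∧
      ∀ y : Fin (m + 1) → ℂ, (∀ i j, ‖y i - y j‖ ≤ D) → pairProd y ≤ pairProd z := by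
  set K : Set (Fin (m + 1) → ℂ) := {z | z 0 = 0 ∧ ∀ i j, ‖z i - z j‖ ≤ D} with hK
  have hclosed : IsClosed K := by
    rw [hK, Set.setOf_and]
    apply IsClosed.inter
    · exact isClosed_eq (continuous_apply 0) continuous_const
    · simp only [Set.setOf_forall]
      apply isClosed_iInter
      intro i
      apply isClosed_iInter
      intro j
      exact isClosed_le (((continuous_apply i).sub (continuous_apply j)).norm) continuous_const
  have hbdd : Bornology.IsBounded K := by
    rw [isBounded_iff_forall_norm_le]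
    refine ⟨D, fun z hz => ?_⟩
    rw [pi_norm_le_iff_of_nonneg hD]
    intro i
    have := hz.2 i 0
    rwa [hz.1, sub_zero] at this
  have hcomp : IsCompact K := Metric.isCompact_of_isClosed_isBounded hclosed hbdd
  obtain ⟨z, hz, hmax⟩ := hcomp.exists_isMaxOn ⟨0, by simp [hK, hD]⟩
    (continuous_pairProd (n := m + 1)).continuousOn
  refine ⟨z, hz.2, fun y hy => ?_⟩
  have h1 : (fun i => y i - y 0) ∈ K := by
    refine ⟨by simp, fun i j => ?_⟩
    simpa using hy i j
  have h2 := hmax h1
  simp only [Set.mem_setOf_eq] at h2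
  rwa [pairProd_sub_const] at h2

/-- For a maximiser with positive product, every point has a partner at distance `D`. -/
lemma exists_partner {m : ℕ} (hm : 1 ≤ m) (D : ℝ) (z : Fin (m + 1) → ℂ)
    (hz : ∀ i j, ‖z i - z j‖ ≤ D) (hpos : 0 < pairProd z) (hD : 0 < D)
    (hmax : ∀ y : Fin (m + 1) → ℂ, (∀ i j, ‖y i - y j‖ ≤ D) → pairProd y ≤ pairProd z)
    (i0 : Fin (m + 1)) : ∃ j, ‖z j - z i0‖ = D := by
  classical
  by_contra hcon
  have hlt : ∀ j, ‖z j - z i0‖ < D := fun j =>
    lt_of_le_of_ne (hz j i0) (fun he => hcon ⟨j, he⟩)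
  set f : ℂ → ℂ := fun w => ∏ i : Fin (m + 1), ∏ j ∈ Finset.Ioi i,
    (Function.update z i0 w i - Function.update z i0 w j) with hf
  have hupd : ∀ i, Differentiable ℂ (fun w : ℂ => Function.update z i0 w i) := by
    intro i
    by_cases hi : i = i0
    · subst hi
      simp only [Function.update_self]
      exact differentiable_id
    · simp only [Function.update_of_ne hi]
      exact differentiable_const _
  have hdiff : Differentiable ℂ f := by
    rw [hf]
    apply Differentiable.fun_finset_prod
    intro i _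
    apply Differentiable.fun_finset_prod
    intro j _
    exact (hupd i).sub (hupd j)
  have hnorm : ∀ w, ‖f w‖ = pairProd (Function.update z i0 w) := by
    intro w
    rw [hf]
    simp only [norm_prod, pairProd]
  have hloc : IsLocalMax (fun w => ‖f w‖) (z i0) := by
    have hev : ∀ᶠ w in nhds (z i0), ∀ j, ‖z j - w‖ < D := by
      rw [Filter.eventually_all]
      intro j
      have hc : Continuous (fun w : ℂ => ‖z j - w‖) := by fun_prop
      exact hc.continuousAt.eventually (gt_mem_nhds (hlt j))
    refine hev.mono (fun w hw => ?_)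
    simp only [hnorm]
    rw [Function.update_eq_self]
    apply hmax
    intro i j
    by_cases hi : i = i0
    · by_cases hj : j = i0
      · subst hi; subst hj
        simp [hD.le]
      · subst hi
        rw [Function.update_self, Function.update_of_ne hj, norm_sub_rev]
        exact (hw j).le
    · by_cases hj : j = i0
      · subst hj
        rw [Function.update_self, Function.update_of_ne hi]
        exact (hw i).le
      · rw [Function.update_of_ne hi, Function.update_of_ne hj]
        exact hz i j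
  have hconst := Complex.eventually_eq_of_isLocalMax_norm
    (Filter.Eventually.of_forall (fun w => hdiff w)) hloc
  have hall : ∀ w, f w = f (z i0) := by
    have h1 : AnalyticOnNhd ℂ f Set.univ := fun w _ => hdiff.analyticAt w
    have h2 : AnalyticOnNhd ℂ (fun _ : ℂ => f (z i0)) Set.univ := fun w _ => analyticAt_const
    have h3 := h1.eq_of_eventuallyEq h2 (z₀ := z i0) hconst
    intro w
    exact congrFun h3 w
  obtain ⟨j0, hj0⟩ : ∃ j0 : Fin (m + 1), j0 ≠ i0 := by
    haveI : Nontrivial (Fin (m + 1)) := Fin.nontrivial_iff_two_le.mpr (by omega)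
    exact exists_ne i0
  have hzero : f (z j0) = 0 := by
    rw [hf]
    simp only
    rcases lt_or_gt_of_ne hj0 with hlt' | hlt'
    · apply Finset.prod_eq_zero (Finset.mem_univ j0)
      apply Finset.prod_eq_zero (Finset.mem_Ioi.mpr hlt')
      rw [Function.update_self, Function.update_of_ne hj0, sub_self]
    · apply Finset.prod_eq_zero (Finset.mem_univ i0)
      apply Finset.prod_eq_zero (Finset.mem_Ioi.mpr hlt')
      rw [Function.update_self, Function.update_of_ne hj0, sub_self]
  have h1 := hnorm (z i0)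
  rw [Function.update_eq_self] at h1
  rw [← h1, ← hall (z j0), hzero, norm_zero] at hpos
  exact lt_irrefl _ hpos

lemma injective_of_pairProd_pos {n : ℕ} (z : Fin n → ℂ) (hpos : 0 < pairProd z) :
    Function.Injective z := by
  intro i j hij
  by_contra hne
  have hzero : pairProd z = 0 := by
    unfold pairProd
    rcases lt_or_gt_of_ne hne with h | h
    · apply Finset.prod_eq_zero (Finset.mem_univ i)
      apply Finset.prod_eq_zero (Finset.mem_Ioi.mpr h)
      rw [hij, sub_self, norm_zero]
    · apply Finset.prod_eq_zero (Finset.mem_univ j)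
      apply Finset.prod_eq_zero (Finset.mem_Ioi.mpr h)
      rw [hij, sub_self, norm_zero]
  rw [hzero] at hpos
  exact lt_irrefl _ hpos

/-- The reduction: to bound the product of pairwise distances of `m + 1` points of diameter at
most `D`, it is enough to treat strictly convex polygons whose perimeter obeys Reinhardt's bound. -/
theorem reduction (m : ℕ) (hm : 1 ≤ m) (D : ℝ) (hD : 0 < D) (B : ℝ) (hB : 0 ≤ B)
    (h : ∀ z : Fin (m + 1) → ℂ, (∀ i j, ‖z i - z j‖ ≤ D) → ConvexPos z →
      ∑ k, ‖z (k + 1) - z k‖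
        ≤ (2 * D) * (((m + 1 : ℕ) : ℝ) * Real.sin (Real.pi / (2 * ((m + 1 : ℕ) : ℝ)))) →
      pairProd z ≤ B) :
    ∀ z : Fin (m + 1) → ℂ, (∀ i j, ‖z i - z j‖ ≤ D) → pairProd z ≤ B := by
  obtain ⟨z, hz, hmax⟩ := exists_maximiser m D hD.le
  intro y hy
  refine le_trans (hmax y hy) ?_
  rcases (pairProd_nonneg z).eq_or_lt with h0 | hpos
  · rw [← h0]; exact hB
  have hinj := injective_of_pairProd_pos z hpos
  have hsupp : ∀ j, ∃ d : ℂ, ∀ i, i ≠ j → rip (z i - z j) d < 0 := by
    intro j
    obtain ⟨w, hw⟩ := exists_partner hm D z hz hpos hD hmax j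
    refine ⟨z j - z w, fun i hi => ?_⟩
    have h1 := hz i w
    have h2 : 0 < ‖z i - z j‖ := norm_pos_iff.mpr (sub_ne_zero.mpr (fun he => hi (hinj he)))
    have e1 : ‖z i - z w‖ ^ 2 = rip (z i - z w) (z i - z w) := (rip_self _).symm
    have e2 : ‖z j - z w‖ ^ 2 = rip (z j - z w) (z j - z w) := (rip_self _).symm
    have e3 : ‖z i - z j‖ ^ 2 = rip (z i - z j) (z i - z j) := (rip_self _).symm
    have hid : 2 * rip (z i - z j) (z j - z w)
        = ‖z i - z w‖ ^ 2 - ‖z j - z w‖ ^ 2 - ‖z i - z j‖ ^ 2 := by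
      rw [e1, e2, e3]
      simp only [rip_eq, Complex.sub_re, Complex.sub_im]
      ring
    have h3 : ‖z j - z w‖ = D := by rw [norm_sub_rev]; exact hw
    have h4 : ‖z i - z w‖ ^ 2 ≤ D ^ 2 := pow_le_pow_left₀ (norm_nonneg _) h1 2
    rw [h3] at hid
    nlinarith [sq_pos_of_pos h2]
  obtain ⟨σ, hσ⟩ := exists_convex_order z hsupp
  rw [← pairProd_perm z σ]
  have hd : ∀ i j, ‖(z ∘ σ) i - (z ∘ σ) j‖ ≤ D := fun i j => hz _ _
  exact h (z ∘ σ) hd hσ (perimeter_bound (z ∘ σ) hσ D hd)

end Pool.Agent.RegPoly
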