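import Pool.Agent.RegPoly.Reinhardt

/-!
Strictly convex position, cyclic order, and the total variation of linear functionals around a
strictly convex polygon.
-/

namespace Pool.Agent.RegPoly

open Finset Complex

/-- Twice the signed area of the triangle `a b c`. -/
def orient (a b c : ℂ) : ℝ :=
  (b.re - a.re) * (c.im - a.im) - (b.im - a.im) * (c.re - a.re)

/-- The points `z 0, z 1, …` are the vertices, in counterclockwise order, of a strictly convex
polygon. -/
def ConvexPos {n : ℕ} (z : Fin n → ℂ) : Prop :=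
  ∀ i j k : Fin n, i < j → j < k → 0 < orient (z i) (z j) (z k)

lemma orient_dep (a b c d : ℂ) (u : ℂ) :
    orient b c d * rip a u + orient a b d * rip c u
      = orient a c d * rip b u + orient a b c * rip d u := by
  simp only [orient, rip_eq]; ring

lemma orient_sum (a b c d : ℂ) :
    orient b c d + orient a b d = orient a c d + orient a b c := by
  simp only [orient]; ring

/-- Total variation of a cyclic sequence without alternating quadruples. -/
lemma cyclic_variation {m : ℕ} (f : Fin (m + 1) → ℝ) (lo hi : ℝ) (hlo : ∀ k, lo ≤ f k)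
    (hhi : ∀ k, f k ≤ hi)
    (h4 : ∀ i j k l : Fin (m + 1), i < j → j < k → k < l → ∃ A B C D : ℝ, 0 < A ∧ 0 < B ∧
      0 < C ∧ 0 < D ∧ A + C = B + D ∧ A * f i + C * f k = B * f j + D * f l) :
    ∑ k, |f (k + 1) - f k| ≤ 2 * (hi - lo) := by
  have hsum0 : ∑ k, (f (k + 1) - f k) = 0 := by
    rw [Finset.sum_sub_distrib, sub_eq_zero]
    exact Equiv.sum_comp (Equiv.addRight (1 : Fin (m + 1))) f
  have habs : ∑ k, |f (k + 1) - f k| = 2 * ∑ k, max (f (k + 1) - f k) 0 := by
    have h1 : ∀ x : ℝ, |x| = 2 * max x 0 - x := by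
      intro x
      rcases le_total 0 x with hx | hx
      · rw [abs_of_nonneg hx, max_eq_left hx]; ring
      · rw [abs_of_nonpos hx, max_eq_right hx]; ring
    calc ∑ k, |f (k + 1) - f k| = ∑ k, (2 * max (f (k + 1) - f k) 0 - (f (k + 1) - f k)) :=
          Finset.sum_congr rfl (fun k _ => h1 _)
      _ = 2 * ∑ k, max (f (k + 1) - f k) 0 := by
          rw [Finset.sum_sub_distrib, hsum0, Finset.mul_sum, sub_zero]
  have hno : ∀ (t : ℝ) (i j k l : Fin (m + 1)), i < j → j < k → k < l →
      ¬ (f i < t ∧ t < f j ∧ f k < t ∧ t < f l) ∧ ¬ (t < f i ∧ f j < t ∧ t < f k ∧ f l < t) := by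
    intro t i j k l hij hjk hkl
    obtain ⟨A, B, C, D, hA, hB, hC, hD, hs, he⟩ := h4 i j k l hij hjk hkl
    constructor
    · rintro ⟨h1, h2, h3, h4⟩
      have e1 : A * f i < A * t := mul_lt_mul_of_pos_left h1 hA
      have e2 : C * f k < C * t := mul_lt_mul_of_pos_left h3 hC
      have e3 : B * t < B * f j := mul_lt_mul_of_pos_left h2 hB
      have e4 : D * t < D * f l := mul_lt_mul_of_pos_left h4 hD
      have e5 : (A + C) * t = (B + D) * t := by rw [hs]
      nlinarith
    · rintro ⟨h1, h2, h3, h4⟩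
      have e1 : A * t < A * f i := mul_lt_mul_of_pos_left h1 hA
      have e2 : C * t < C * f k := mul_lt_mul_of_pos_left h3 hC
      have e3 : B * f j < B * t := mul_lt_mul_of_pos_left h2 hB
      have e4 : D * f l < D * t := mul_lt_mul_of_pos_left h4 hD
      have e5 : (A + C) * t = (B + D) * t := by rw [hs]
      nlinarith
  have hdisj : ∀ k l : Fin (m + 1), k < l →
      Disjoint (Set.Ioo (f k) (f (k + 1))) (Set.Ioo (f l) (f (l + 1))) := by
    intro k l hkl
    rw [Set.disjoint_left]
    rintro t ⟨hk1, hk2⟩ ⟨hl1, hl2⟩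
    have hkv : (k : ℕ) < (l : ℕ) := hkl
    have hlm : (l : ℕ) < m + 1 := l.isLt
    have hk1v : ((k + 1 : Fin (m + 1)) : ℕ) = (k : ℕ) + 1 := by
      rw [Fin.val_add_one_of_lt]
      exact lt_of_lt_of_le hkl (Fin.le_last _)
    by_cases hkl1 : (k : ℕ) + 1 = l
    · have : k + 1 = l := by
        ext
        rw [hk1v, hkl1]
      rw [this] at hk2
      linarith
    · by_cases hlast : (l : ℕ) = m
      · have hl0 : l + 1 = 0 := by
          have : l = Fin.last m := by ext; simpa using hlast
          rw [this, Fin.last_add_one]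
        rw [hl0] at hl2
        by_cases hk0 : k = 0
        · rw [hk0] at hk1
          linarith
        · have h0k : (0 : Fin (m + 1)) < k := Fin.pos_iff_ne_zero.mpr hk0
          have hkk : k < k + 1 := by
            rw [Fin.lt_def, hk1v]; omega
          have hk1l : k + 1 < l := by
            rw [Fin.lt_def, hk1v]; omega
          exact (hno t 0 k (k + 1) l h0k hkk hk1l).2 ⟨hl2, hk1, hk2, hl1⟩
      · have hl1v : ((l + 1 : Fin (m + 1)) : ℕ) = (l : ℕ) + 1 := by
          rw [Fin.val_add_one_of_lt]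
          rw [Fin.lt_def, Fin.val_last]
          omega
        have hkk : k < k + 1 := by
          rw [Fin.lt_def, hk1v]; omega
        have hk1l : k + 1 < l := by
          rw [Fin.lt_def, hk1v]; omega
        have hll : l < l + 1 := by
          rw [Fin.lt_def, hl1v]; omega
        exact (hno t k (k + 1) l (l + 1) hkk hk1l hll).1 ⟨hk1, hk2, hl1, hl2⟩
  have hpd : (↑(Finset.univ : Finset (Fin (m + 1))) : Set (Fin (m + 1))).PairwiseDisjoint
      (fun k => Set.Ioo (f k) (f (k + 1))) := by
    intro k _ l _ hkl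
    rcases lt_or_gt_of_ne hkl with h | h
    · exact hdisj k l h
    · exact (hdisj l k h).symm
  have hvol := MeasureTheory.measure_biUnion_finset (μ := MeasureTheory.volume) hpd
    (fun k _ => measurableSet_Ioo)
  have hsub : (⋃ k ∈ (Finset.univ : Finset (Fin (m + 1))), Set.Ioo (f k) (f (k + 1)))
      ⊆ Set.Icc lo hi := by
    intro t ht
    simp only [Finset.mem_univ, Set.iUnion_true, Set.mem_iUnion] at ht
    obtain ⟨k, hk1, hk2⟩ := ht
    exact ⟨le_trans (hlo k) hk1.le, le_trans hk2.le (hhi _)⟩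
  have hle := MeasureTheory.measure_mono (μ := MeasureTheory.volume) hsub
  rw [hvol, Real.volume_Icc] at hle
  have hlohi : 0 ≤ hi - lo := by linarith [hlo 0, hhi 0]
  have hmain : ∑ k, max (f (k + 1) - f k) 0 ≤ hi - lo := by
    have h1 : ∀ k : Fin (m + 1), MeasureTheory.volume (Set.Ioo (f k) (f (k + 1)))
        = ENNReal.ofReal (max (f (k + 1) - f k) 0) := by
      intro k
      rw [Real.volume_Ioo]
      rcases le_total 0 (f (k + 1) - f k) with hx | hx
      · rw [max_eq_left hx]
      · rw [max_eq_right hx, ENNReal.ofReal_of_nonpos hx, ENNReal.ofReal_zero]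
    simp only [h1] at hle
    rw [← ENNReal.ofReal_sum_of_nonneg (fun _ _ => le_max_right _ _)] at hle
    exact (ENNReal.ofReal_le_ofReal_iff hlohi).mp hle
  rw [habs]
  linarith

/-- Width bound: for a strictly convex polygon of diameter at most `2`, every linear functional
has total variation at most `4 |u|` around the polygon. -/
lemma width_bound {m : ℕ} (z : Fin (m + 1) → ℂ) (hc : ConvexPos z) (D : ℝ)
    (hd : ∀ i j, ‖z i - z j‖ ≤ D) (u : ℂ) :
    ∑ k, |rip (z (k + 1) - z k) u| ≤ (2 * D) * ‖u‖ := by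
  obtain ⟨a, _, ha⟩ := Finset.exists_max_image (Finset.univ : Finset (Fin (m + 1)))
    (fun k => rip (z k) u) ⟨0, Finset.mem_univ _⟩
  obtain ⟨b, _, hb⟩ := Finset.exists_min_image (Finset.univ : Finset (Fin (m + 1)))
    (fun k => rip (z k) u) ⟨0, Finset.mem_univ _⟩
  have h := cyclic_variation (fun k => rip (z k) u) (rip (z b) u) (rip (z a) u)
    (fun k => hb k (Finset.mem_univ _)) (fun k => ha k (Finset.mem_univ _)) ?_
  · have h1 : rip (z a) u - rip (z b) u ≤ D * ‖u‖ := by
      rw [← rip_sub_left]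
      exact le_trans (rip_le _ _) (mul_le_mul_of_nonneg_right (hd a b) (norm_nonneg _))
    calc ∑ k, |rip (z (k + 1) - z k) u| = ∑ k, |rip (z (k + 1)) u - rip (z k) u| :=
          Finset.sum_congr rfl (fun k _ => by rw [rip_sub_left])
      _ ≤ 2 * (rip (z a) u - rip (z b) u) := h
      _ ≤ (2 * D) * ‖u‖ := by linarith
  · intro i j k l hij hjk hkl
    refine ⟨orient (z j) (z k) (z l), orient (z i) (z k) (z l), orient (z i) (z j) (z l),
      orient (z i) (z j) (z k), hc _ _ _ hjk hkl, hc _ _ _ (hij.trans hjk) hkl,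
      hc _ _ _ hij (hjk.trans hkl), hc _ _ _ hij hjk, orient_sum _ _ _ _, orient_dep _ _ _ _ _⟩

/-- Reinhardt's perimeter bound for strictly convex polygons of diameter at most `D`. -/
theorem perimeter_bound {m : ℕ} (z : Fin (m + 1) → ℂ) (hc : ConvexPos z) (D : ℝ)
    (hd : ∀ i j, ‖z i - z j‖ ≤ D) :
    ∑ k, ‖z (k + 1) - z k‖
      ≤ (2 * D) * (((m + 1 : ℕ) : ℝ) * Real.sin (Real.pi / (2 * ((m + 1 : ℕ) : ℝ)))) :=
  reinhardt (m + 1) (fun k => z (k + 1) - z k) (2 * D) (width_bound z hc D hd)

/-- Points each of which is strictly supported can be ordered into a strictly convex polygon. -/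
theorem exists_convex_order {m : ℕ} (z : Fin (m + 1) → ℂ)
    (h : ∀ j, ∃ d : ℂ, ∀ i, i ≠ j → rip (z i - z j) d < 0) :
    ∃ σ : Equiv.Perm (Fin (m + 1)), ConvexPos (z ∘ σ) := by
  classical
  obtain ⟨d0, hd0⟩ := h 0
  set X : Fin (m + 1) → ℝ := fun i => - rip (z i - z 0) d0 with hX
  set Y : Fin (m + 1) → ℝ := fun i =>
    -(d0.re * (z i - z 0).im - d0.im * (z i - z 0).re) with hY
  have hXpos : ∀ i, i ≠ 0 → 0 < X i := fun i hi => by
    have := hd0 i hi
    simp only [hX]
    linarith
  have hnorm : 0 < d0.re ^ 2 + d0.im ^ 2 ∨ m = 0 := by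
    rcases Nat.eq_zero_or_pos m with hm | hm
    · exact Or.inr hm
    · left
      by_contra hcon
      have h1 : d0.re ^ 2 + d0.im ^ 2 = 0 := le_antisymm (not_lt.mp hcon) (by positivity)
      have h2 : d0.re = 0 := by nlinarith [sq_nonneg d0.re, sq_nonneg d0.im]
      have h3 : d0.im = 0 := by nlinarith [sq_nonneg d0.re, sq_nonneg d0.im]
      have h4 := hXpos (Fin.last m) (by
        intro he
        have := congrArg Fin.val he
        simp at this
        omega)
      simp [hX, rip_eq, h2, h3] at h4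
  have hident : ∀ i j, X i * Y j - X j * Y i
      = (d0.re ^ 2 + d0.im ^ 2) * orient (z 0) (z i) (z j) := by
    intro i j
    simp only [hX, hY, orient, rip_eq, Complex.sub_re, Complex.sub_im]
    ring
  -- distinct slopes
  have hslope : ∀ i j, i ≠ 0 → j ≠ 0 → i ≠ j → X i ≤ X j → Y i / X i ≠ Y j / X j := by
    intro i j hi hj hij hle he
    have hXi := hXpos i hi
    have hXj := hXpos j hj
    rw [div_eq_div_iff hXi.ne' hXj.ne'] at he
    obtain ⟨di, hdi⟩ := h i
    have h1 := hdi 0 (Ne.symm hi)
    have h2 := hdi j (Ne.symm hij)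
    -- X j • (z i - z 0) = X i • (z j - z 0)
    have hm : 0 < d0.re ^ 2 + d0.im ^ 2 := by
      rcases hnorm with h | h
      · exact h
      · exfalso
        apply hi
        ext
        have := i.isLt
        simp
        omega
    have hre : (d0.re ^ 2 + d0.im ^ 2) * (X j * (z i - z 0).re - X i * (z j - z 0).re) = 0 := by
      have e1 : (d0.re ^ 2 + d0.im ^ 2) * (z i - z 0).re = - d0.re * X i + d0.im * Y i := by
        simp only [hX, hY, rip_eq]; ring
      have e2 : (d0.re ^ 2 + d0.im ^ 2) * (z j - z 0).re = - d0.re * X j + d0.im * Y j := by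
        simp only [hX, hY, rip_eq]; ring
      calc (d0.re ^ 2 + d0.im ^ 2) * (X j * (z i - z 0).re - X i * (z j - z 0).re)
          = X j * ((d0.re ^ 2 + d0.im ^ 2) * (z i - z 0).re)
            - X i * ((d0.re ^ 2 + d0.im ^ 2) * (z j - z 0).re) := by ring
        _ = d0.im * (Y i * X j - Y j * X i) := by rw [e1, e2]; ring
        _ = 0 := by rw [he]; ring
    have him : (d0.re ^ 2 + d0.im ^ 2) * (X j * (z i - z 0).im - X i * (z j - z 0).im) = 0 := by
      have e1 : (d0.re ^ 2 + d0.im ^ 2) * (z i - z 0).im = - d0.im * X i - d0.re * Y i := by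
        simp only [hX, hY, rip_eq]; ring
      have e2 : (d0.re ^ 2 + d0.im ^ 2) * (z j - z 0).im = - d0.im * X j - d0.re * Y j := by
        simp only [hX, hY, rip_eq]; ring
      calc (d0.re ^ 2 + d0.im ^ 2) * (X j * (z i - z 0).im - X i * (z j - z 0).im)
          = X j * ((d0.re ^ 2 + d0.im ^ 2) * (z i - z 0).im)
            - X i * ((d0.re ^ 2 + d0.im ^ 2) * (z j - z 0).im) := by ring
        _ = - d0.re * (Y i * X j - Y j * X i) := by rw [e1, e2]; ring
        _ = 0 := by rw [he]; ring
    have hre' := (mul_eq_zero.mp hre).resolve_left hm.ne'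
    have him' := (mul_eq_zero.mp him).resolve_left hm.ne'
    have hcomb : (X j - X i) * rip (z 0 - z i) di + X i * rip (z j - z i) di
        = 0 := by
      simp only [rip_eq, Complex.sub_re, Complex.sub_im] at *
      linear_combination (-di.re) * hre' + (-di.im) * him'
    nlinarith [mul_pos hXi (neg_pos.mpr h2), mul_nonneg (sub_nonneg.mpr hle) (neg_pos.mpr h1).le]
  set κ : Fin (m + 1) → WithBot ℝ := fun i => if i = 0 then ⊥ else ((Y i / X i : ℝ) : WithBot ℝ)
    with hκ
  have hκinj : Function.Injective κ := by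
    intro i j hij
    by_contra hne
    by_cases hi : i = 0
    · by_cases hj : j = 0
      · exact hne (hi.trans hj.symm)
      · simp [hκ, hi, hj] at hij
    · by_cases hj : j = 0
      · simp [hκ, hi, hj] at hij
      · simp only [hκ, hi, hj, if_false] at hij
        have he : Y i / X i = Y j / X j := WithBot.coe_injective hij
        rcases le_total (X i) (X j) with hle | hle
        · exact hslope i j hi hj hne hle he
        · exact hslope j i hj hi (Ne.symm hne) hle he.symm
  set σ := Tuple.sort κ with hσ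
  have hmono : Monotone (κ ∘ σ) := Tuple.monotone_sort κ
  have hstrict : StrictMono (κ ∘ σ) :=
    hmono.strictMono_of_injective (hκinj.comp σ.injective)
  have hor0 : ∀ a b, a ≠ 0 → b ≠ 0 → Y a / X a < Y b / X b → 0 < orient (z 0) (z a) (z b) := by
    intro a b ha hb hlt
    rw [div_lt_div_iff₀ (hXpos a ha) (hXpos b hb)] at hlt
    have h1 := hident a b
    have hm : 0 < d0.re ^ 2 + d0.im ^ 2 := by
      rcases hnorm with h | h
      · exact h
      · exfalso
        apply ha
        ext
        have := a.isLt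
        simp
        omega
    have h2 : 0 < (d0.re ^ 2 + d0.im ^ 2) * orient (z 0) (z a) (z b) := by
      rw [← h1]
      linarith
    exact (mul_pos_iff_of_pos_left hm).mp h2
  refine ⟨σ, ?_⟩
  intro i j k hij hjk
  have h1 := hstrict hij
  have h2 := hstrict hjk
  simp only [Function.comp] at h1 h2 ⊢
  have hj0 : σ j ≠ 0 := by
    intro he
    rw [he] at h1
    simp [hκ] at h1
  have hk0 : σ k ≠ 0 := by
    intro he
    rw [he] at h2
    simp [hκ] at h2
  have hjk' : Y (σ j) / X (σ j) < Y (σ k) / X (σ k) := by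
    simp only [hκ, hj0, hk0, if_false] at h2
    exact WithBot.coe_lt_coe.mp h2
  by_cases hi0 : σ i = 0
  · rw [hi0]
    exact hor0 _ _ hj0 hk0 hjk'
  · have hij' : Y (σ i) / X (σ i) < Y (σ j) / X (σ j) := by
      simp only [hκ, hi0, hj0, if_false] at h1
      exact WithBot.coe_lt_coe.mp h1
    have o1 := hor0 _ _ hi0 hj0 hij'
    have o2 := hor0 _ _ hj0 hk0 hjk'
    by_contra hcon
    obtain ⟨d, hd⟩ := h (σ j)
    have hne1 : σ i ≠ σ j := fun he => (ne_of_lt hij) (σ.injective he)
    have hne2 : σ k ≠ σ j := fun he => (ne_of_gt hjk) (σ.injective he)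
    have g0 := hd 0 (Ne.symm hj0)
    have gi := hd (σ i) hne1
    have gk := hd (σ k) hne2
    have hid : orient (z 0) (z (σ j)) (z (σ k)) * rip (z (σ i) - z (σ j)) d
        + orient (z 0) (z (σ i)) (z (σ j)) * rip (z (σ k) - z (σ j)) d
        + (- orient (z (σ i)) (z (σ j)) (z (σ k))) * rip (z 0 - z (σ j)) d = 0 := by
      simp only [orient, rip_eq, Complex.sub_re, Complex.sub_im]
      ring
    have hcon' : orient (z (σ i)) (z (σ j)) (z (σ k)) ≤ 0 := not_lt.mp hcon
    nlinarith [mul_pos o2 (neg_pos.mpr gi), mul_pos o1 (neg_pos.mpr gk),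
      mul_nonneg (neg_nonneg.mpr hcon') (neg_pos.mpr g0).le]

end Pool.Agent.RegPoly
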