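import Pool.Agent.RegPoly.FiveSeven

/-!
Exact side and diagonal lengths of the regular pentagon and heptagon of diameter two.
-/

namespace Pool.Agent.RegPoly

open Real

lemma cos_pi_ten_pos : 0 < cos (π / 10) :=
  cos_pos_of_mem_Ioo ⟨by linarith [pi_pos], by linarith [pi_pos]⟩

lemma cos_pi_fourteen_pos : 0 < cos (π / 14) :=
  cos_pos_of_mem_Ioo ⟨by linarith [pi_pos], by linarith [pi_pos]⟩

lemma five_val1 : 2 * (1 / cos (π / (2 * (5 : ℝ)))) * sin (π / 5) = 4 * sin (π / 10) := by
  have h := cos_pi_ten_pos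
  rw [show π / (2 * (5 : ℝ)) = π / 10 by norm_num, show π / 5 = 2 * (π / 10) by ring, sin_two_mul]
  field_simp
  ring

lemma five_val2 : 2 * (1 / cos (π / (2 * (5 : ℝ)))) * sin (2 * π / 5) = 2 := by
  have h := cos_pi_ten_pos
  rw [show π / (2 * (5 : ℝ)) = π / 10 by norm_num,
    show 2 * π / 5 = π / 2 - π / 10 by ring, sin_pi_div_two_sub]
  field_simp

lemma seven_val1 : 2 * (1 / cos (π / (2 * (7 : ℝ)))) * sin (π / 7) = 4 * sin (π / 14) := by
  have h := cos_pi_fourteen_pos
  rw [show π / (2 * (7 : ℝ)) = π / 14 by norm_num, show π / 7 = 2 * (π / 14) by ring, sin_two_mul]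
  field_simp
  ring

lemma seven_val2 : 2 * (1 / cos (π / (2 * (7 : ℝ)))) * sin (2 * π / 7)
    = 2 * (4 * sin (π / 14)) * cos (π / 7) := by
  have h := seven_val1
  rw [show 2 * π / 7 = 2 * (π / 7) by ring, sin_two_mul]
  rw [← h]; ring

lemma seven_val3 : 2 * (1 / cos (π / (2 * (7 : ℝ)))) * sin (3 * π / 7) = 2 := by
  have h := cos_pi_fourteen_pos
  rw [show π / (2 * (7 : ℝ)) = π / 14 by norm_num,
    show 3 * π / 7 = π / 2 - π / 14 by ring, sin_pi_div_two_sub]
  field_simp

/-- The value of a chord of the regular polygon between the vertices `i ≤ j`, via a sine equal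
to the wanted one. -/
lemma reg_dist' {n : ℕ} (hn : 2 ≤ n) (i j : Fin n) (h : i.val ≤ j.val) (x : ℝ)
    (hx : sin (π * ((j.val : ℝ) - i.val) / n) = sin x) :
    ‖reg n j - reg n i‖ = 2 * (1 / Real.cos (Real.pi / (2 * (n : ℝ)))) * sin x := by
  rw [norm_sub_rev, reg_dist hn i j h, hx]

lemma reg5_side (k : Fin 5) : ‖reg 5 (k + 1) - reg 5 k‖ = 4 * sin (π / 10) := by
  rw [← five_val1]
  have c5 : ((5 : ℕ) : ℝ) = 5 := by norm_num
  have key : ∀ (i j : Fin 5) (m : ℕ), j.val = i.val + m → sin (π * (m : ℝ) / 5) = sin (π / 5) →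
      ‖reg 5 j - reg 5 i‖ = 2 * (1 / cos (π / (2 * (5 : ℝ)))) * sin (π / 5) := by
    intro i j m h hx
    have := reg_dist' (n := 5) (by norm_num) i j (by omega) (π / 5) (by rw [c5, h]; rw [← hx]; congr 1; push_cast; ring)
    rw [c5] at this
    exact this
  fin_cases k
  · exact key 0 1 1 (by decide) (by congr 1; push_cast; ring)
  · exact key 1 2 1 (by decide) (by congr 1; push_cast; ring)
  · exact key 2 3 1 (by decide) (by congr 1; push_cast; ring)
  · exact key 3 4 1 (by decide) (by congr 1; push_cast; ring)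
  · rw [norm_sub_rev]
    refine key 0 4 4 (by decide) ?_
    rw [← sin_pi_sub]; congr 1; push_cast; ring

lemma reg5_diag (k : Fin 5) : ‖reg 5 (k + 2) - reg 5 k‖ = 2 := by
  rw [← five_val2]
  have c5 : ((5 : ℕ) : ℝ) = 5 := by norm_num
  have key : ∀ (i j : Fin 5) (m : ℕ), j.val = i.val + m →
      sin (π * (m : ℝ) / 5) = sin (2 * π / 5) →
      ‖reg 5 j - reg 5 i‖ = 2 * (1 / cos (π / (2 * (5 : ℝ)))) * sin (2 * π / 5) := by
    intro i j m h hx
    have := reg_dist' (n := 5) (by norm_num) i j (by omega) (2 * π / 5) (by rw [c5, h]; rw [← hx]; congr 1; push_cast; ring)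
    rw [c5] at this
    exact this
  fin_cases k
  · exact key 0 2 2 (by decide) (by congr 1; push_cast; ring)
  · exact key 1 3 2 (by decide) (by congr 1; push_cast; ring)
  · exact key 2 4 2 (by decide) (by congr 1; push_cast; ring)
  · rw [norm_sub_rev]
    refine key 0 3 3 (by decide) ?_
    rw [← sin_pi_sub]; congr 1; push_cast; ring
  · rw [norm_sub_rev]
    refine key 1 4 3 (by decide) ?_
    rw [← sin_pi_sub]; congr 1; push_cast; ring

lemma reg7_side (k : Fin 7) : ‖reg 7 (k + 1) - reg 7 k‖ = 4 * sin (π / 14) := by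
  rw [← seven_val1]
  have c7 : ((7 : ℕ) : ℝ) = 7 := by norm_num
  have key : ∀ (i j : Fin 7) (m : ℕ), j.val = i.val + m → sin (π * (m : ℝ) / 7) = sin (π / 7) →
      ‖reg 7 j - reg 7 i‖ = 2 * (1 / cos (π / (2 * (7 : ℝ)))) * sin (π / 7) := by
    intro i j m h hx
    have := reg_dist' (n := 7) (by norm_num) i j (by omega) (π / 7) (by rw [c7, h]; rw [← hx]; congr 1; push_cast; ring)
    rw [c7] at this
    exact this
  fin_cases k
  · exact key 0 1 1 (by decide) (by congr 1; push_cast; ring)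
  · exact key 1 2 1 (by decide) (by congr 1; push_cast; ring)
  · exact key 2 3 1 (by decide) (by congr 1; push_cast; ring)
  · exact key 3 4 1 (by decide) (by congr 1; push_cast; ring)
  · exact key 4 5 1 (by decide) (by congr 1; push_cast; ring)
  · exact key 5 6 1 (by decide) (by congr 1; push_cast; ring)
  · rw [norm_sub_rev]
    refine key 0 6 6 (by decide) ?_
    rw [← sin_pi_sub]; congr 1; push_cast; ring

lemma reg7_diag2 (k : Fin 7) :
    ‖reg 7 (k + 2) - reg 7 k‖ = 2 * (4 * sin (π / 14)) * cos (π / 7) := by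
  rw [← seven_val2]
  have c7 : ((7 : ℕ) : ℝ) = 7 := by norm_num
  have key : ∀ (i j : Fin 7) (m : ℕ), j.val = i.val + m →
      sin (π * (m : ℝ) / 7) = sin (2 * π / 7) →
      ‖reg 7 j - reg 7 i‖ = 2 * (1 / cos (π / (2 * (7 : ℝ)))) * sin (2 * π / 7) := by
    intro i j m h hx
    have := reg_dist' (n := 7) (by norm_num) i j (by omega) (2 * π / 7) (by rw [c7, h]; rw [← hx]; congr 1; push_cast; ring)
    rw [c7] at this
    exact this
  fin_cases k
  · exact key 0 2 2 (by decide) (by congr 1; push_cast; ring)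
  · exact key 1 3 2 (by decide) (by congr 1; push_cast; ring)
  · exact key 2 4 2 (by decide) (by congr 1; push_cast; ring)
  · exact key 3 5 2 (by decide) (by congr 1; push_cast; ring)
  · exact key 4 6 2 (by decide) (by congr 1; push_cast; ring)
  · rw [norm_sub_rev]
    refine key 0 5 5 (by decide) ?_
    rw [← sin_pi_sub]; congr 1; push_cast; ring
  · rw [norm_sub_rev]
    refine key 1 6 5 (by decide) ?_
    rw [← sin_pi_sub]; congr 1; push_cast; ring

lemma reg7_diag3 (k : Fin 7) : ‖reg 7 (k + 3) - reg 7 k‖ = 2 := by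
  rw [← seven_val3]
  have c7 : ((7 : ℕ) : ℝ) = 7 := by norm_num
  have key : ∀ (i j : Fin 7) (m : ℕ), j.val = i.val + m →
      sin (π * (m : ℝ) / 7) = sin (3 * π / 7) →
      ‖reg 7 j - reg 7 i‖ = 2 * (1 / cos (π / (2 * (7 : ℝ)))) * sin (3 * π / 7) := by
    intro i j m h hx
    have := reg_dist' (n := 7) (by norm_num) i j (by omega) (3 * π / 7) (by rw [c7, h]; rw [← hx]; congr 1; push_cast; ring)
    rw [c7] at this
    exact this
  fin_cases k
  · exact key 0 3 3 (by decide) (by congr 1; push_cast; ring)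
  · exact key 1 4 3 (by decide) (by congr 1; push_cast; ring)
  · exact key 2 5 3 (by decide) (by congr 1; push_cast; ring)
  · exact key 3 6 3 (by decide) (by congr 1; push_cast; ring)
  · rw [norm_sub_rev]
    refine key 0 4 4 (by decide) ?_
    rw [← sin_pi_sub]; congr 1; push_cast; ring
  · rw [norm_sub_rev]
    refine key 1 5 4 (by decide) ?_
    rw [← sin_pi_sub]; congr 1; push_cast; ring
  · rw [norm_sub_rev]
    refine key 2 6 4 (by decide) ?_
    rw [← sin_pi_sub]; congr 1; push_cast; ring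

lemma reg5_prod : pairProd (reg 5) = (4 * sin (π / 10)) ^ 5 * 2 ^ 5 := by
  unfold pairProd
  rw [prod5 (fun i j => ‖reg 5 i - reg 5 j‖) (fun i j => norm_sub_rev _ _)]
  simp only [reg5_side, reg5_diag, Finset.prod_const, Finset.card_univ, Fintype.card_fin]

lemma reg7_prod : pairProd (reg 7)
    = (2 ^ 7 * ((4 * sin (π / 14)) ^ 7) ^ 2 * cos (π / 7) ^ 7) * 2 ^ 7 := by
  unfold pairProd
  rw [prod7 (fun i j => ‖reg 7 i - reg 7 j‖) (fun i j => norm_sub_rev _ _)]
  simp only [reg7_side, reg7_diag2, reg7_diag3, Finset.prod_const, Finset.card_univ,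
    Fintype.card_fin]
  ring

theorem main_five (z : Fin 5 → ℂ) (hz : ∀ i j, ‖z i - z j‖ ≤ 2) :
    pairProd z ≤ pairProd (reg 5) := by
  rw [reg5_prod]
  have hs0 : 0 ≤ sin (π / 10) :=
    sin_nonneg_of_nonneg_of_le_pi (by positivity) (by linarith [pi_pos])
  refine reduction 4 (by norm_num) 2 (by norm_num) _ (by positivity) ?_ z hz
  intro y hy _ hper
  apply five_bound y hy
  refine hper.trans (le_of_eq ?_)
  norm_num

theorem main_seven (z : Fin 7 → ℂ) (hz : ∀ i j, ‖z i - z j‖ ≤ 2) :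
    pairProd z ≤ pairProd (reg 7) := by
  rw [reg7_prod]
  have hs0 : 0 ≤ sin (π / 14) :=
    sin_nonneg_of_nonneg_of_le_pi (by positivity) (by linarith [pi_pos])
  have hcpos : 0 < cos (π / 7) := cos_pos_of_mem_Ioo ⟨by linarith [pi_pos], by linarith [pi_pos]⟩
  refine reduction 6 (by norm_num) 2 (by norm_num) _ (by positivity) ?_ z hz
  intro y hy hc hper
  apply seven_bound y hy hc
  refine hper.trans (le_of_eq ?_)
  norm_num

end Pool.Agent.RegPoly
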