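import Mathlib

/-!
Reinhardt's perimeter bound, in the form: if `v_1, …, v_n` are complex numbers with
`∑ |Re (v_k * conj u)| ≤ 4 |u|` for every `u`, then `∑ |v_k| ≤ 4 n sin (π / (2 n))`.
-/

namespace Pool.Agent.RegPoly

open Finset Complex

/-- Real part of `v * conj u`. -/
noncomputable def rip (v u : ℂ) : ℝ := (v * (starRingEnd ℂ) u).re

lemma rip_eq (v u : ℂ) : rip v u = v.re * u.re + v.im * u.im := by
  simp [rip]

lemma rip_le (v u : ℂ) : rip v u ≤ ‖v‖ * ‖u‖ := by
  have h := Complex.re_le_norm (v * (starRingEnd ℂ) u)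
  rw [norm_mul, Complex.norm_conj] at h
  exact h

lemma rip_self (v : ℂ) : rip v v = ‖v‖ ^ 2 := by
  rw [rip_eq, ← Complex.normSq_eq_norm_sq, Complex.normSq_apply]

lemma rip_add_left (a b u : ℂ) : rip (a + b) u = rip a u + rip b u := by
  simp [rip_eq]; ring

lemma rip_sub_left (a b u : ℂ) : rip (a - b) u = rip a u - rip b u := by
  simp [rip_eq]; ring

lemma rip_neg_left (a u : ℂ) : rip (-a) u = - rip a u := by
  simp [rip_eq]; ring

lemma rip_neg_right (a u : ℂ) : rip a (-u) = - rip a u := by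
  simp [rip_eq]; ring

lemma rip_add_right (a b u : ℂ) : rip u (a + b) = rip u a + rip u b := by
  simp [rip_eq]; ring

lemma rip_sub_right (a b u : ℂ) : rip u (a - b) = rip u a - rip u b := by
  simp [rip_eq]; ring

lemma rip_sum_left {ι : Type*} (s : Finset ι) (f : ι → ℂ) (u : ℂ) :
    rip (∑ i ∈ s, f i) u = ∑ i ∈ s, rip (f i) u := by
  simp [rip, Finset.sum_mul]

/-- Every sign combination of the `v_k` has norm at most `4`. -/
lemma norm_signed_le {ι : Type*} (s : Finset ι) (v : ι → ℂ) (ε : ι → ℝ)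
    (hε : ∀ i ∈ s, |ε i| ≤ 1) (C : ℝ)
    (h : ∀ u : ℂ, ∑ i ∈ s, |rip (v i) u| ≤ C * ‖u‖) :
    ‖∑ i ∈ s, (ε i : ℂ) * v i‖ ≤ C := by
  set S := ∑ i ∈ s, (ε i : ℂ) * v i with hS
  by_cases h0 : S = 0
  · rw [h0, norm_zero]
    have := h 1
    have h2 : 0 ≤ ∑ i ∈ s, |rip (v i) 1| := Finset.sum_nonneg (fun _ _ => abs_nonneg _)
    simp at this
    linarith
  · have hpos : 0 < ‖S‖ := norm_pos_iff.mpr h0
    have h1 : ‖S‖ ^ 2 ≤ C * ‖S‖ := by
      rw [← rip_self]
      calc rip S S = ∑ i ∈ s, rip ((ε i : ℂ) * v i) S := by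
            rw [hS, rip_sum_left]
        _ ≤ ∑ i ∈ s, |rip (v i) S| := by
            apply Finset.sum_le_sum
            intro i hi
            have : rip ((ε i : ℂ) * v i) S = ε i * rip (v i) S := by
              simp [rip_eq]; ring
            rw [this]
            calc ε i * rip (v i) S ≤ |ε i * rip (v i) S| := le_abs_self _
              _ = |ε i| * |rip (v i) S| := abs_mul _ _
              _ ≤ 1 * |rip (v i) S| := by
                  apply mul_le_mul_of_nonneg_right (hε i hi) (abs_nonneg _)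
              _ = |rip (v i) S| := one_mul _
        _ ≤ C * ‖S‖ := h S
    have h2 : ‖S‖ * ‖S‖ ≤ C * ‖S‖ := by rw [← sq]; exact h1
    exact le_of_mul_le_mul_right h2 hpos

lemma norm_exp_sub_exp (a b : ℝ) (h : a ≤ b) (h2 : b - a ≤ 2 * Real.pi) :
    ‖Complex.exp (b * I) - Complex.exp (a * I)‖ = 2 * Real.sin ((b - a) / 2) := by
  have h1 : Complex.exp (b * I) - Complex.exp (a * I)
      = Complex.exp (((a + b) / 2 : ℝ) * I) * (2 * Real.sin ((b - a) / 2) * I) := by
    have e1 : Complex.exp (b * I) = Complex.exp (((a + b) / 2 : ℝ) * I) *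
        Complex.exp (((b - a) / 2 : ℝ) * I) := by
      rw [← Complex.exp_add]; congr 1; push_cast; ring
    have e2 : Complex.exp (a * I) = Complex.exp (((a + b) / 2 : ℝ) * I) *
        Complex.exp (-(((b - a) / 2 : ℝ) * I)) := by
      rw [← Complex.exp_add]; congr 1; push_cast; ring
    have e3 : Complex.exp (((b - a) / 2 : ℝ) * I) - Complex.exp (-(((b - a) / 2 : ℝ) * I))
        = 2 * Real.sin ((b - a) / 2) * I := by
      have : (Complex.exp (-(((b - a) / 2 : ℝ) * I))) = Complex.exp ((-((b - a) / 2 : ℝ) : ℂ) * I) := by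
        congr 1; ring
      rw [this, Complex.exp_mul_I, Complex.exp_mul_I, Complex.cos_neg, Complex.sin_neg,
        ← Complex.ofReal_sin]
      ring
    rw [e1, e2, ← mul_sub, e3]
  rw [h1, norm_mul, Complex.norm_exp_ofReal_mul_I, one_mul, norm_mul, norm_mul, Complex.norm_I,
    mul_one, Complex.norm_real, Complex.norm_ofNat, Real.norm_eq_abs,
    abs_of_nonneg]
  apply Real.sin_nonneg_of_nonneg_of_le_pi <;> linarith

lemma norm_exp_add_exp (a b : ℝ) (h : a ≤ b) (h2 : b - a ≤ Real.pi) :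
    ‖Complex.exp (a * I) + Complex.exp (b * I)‖ = 2 * Real.sin ((Real.pi - (b - a)) / 2) := by
  have h1 : Complex.exp (a * I) + Complex.exp (b * I)
      = Complex.exp ((a + Real.pi : ℝ) * I) * (-1) + Complex.exp (b * I) := by
    congr 1
    push_cast
    rw [add_mul, Complex.exp_add, Complex.exp_pi_mul_I]
    ring
  have h3 : Complex.exp (a * I) + Complex.exp (b * I)
      = -(Complex.exp ((a + Real.pi : ℝ) * I) - Complex.exp (b * I)) := by
    rw [h1]; ring
  rw [h3, norm_neg, norm_exp_sub_exp b (a + Real.pi) (by linarith) (by linarith [Real.pi_pos])]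
  congr 2
  ring

/-- Abel summation part: sorted angles in `[0, π)`, `w_j = ρ_j e^{iθ_j}`. -/
lemma sorted_bound (n : ℕ) (ρ θ : ℕ → ℝ) (hρ : ∀ j, 0 ≤ ρ j)
    (hmono : Monotone θ) (h0 : 0 ≤ θ 0) (hpi : θ n < Real.pi) (C : ℝ)
    (h : ∀ u : ℂ, ∑ j ∈ range (n + 1), |rip ((ρ j : ℂ) * Complex.exp (θ j * I)) u| ≤ C * ‖u‖) :
    ∑ j ∈ range (n + 1), ρ j ≤ C * ((n + 1 : ℕ) * Real.sin (Real.pi / (2 * (n + 1 : ℕ)))) := by
  set w : ℕ → ℂ := fun j => (ρ j : ℂ) * Complex.exp (θ j * I) with hw
  set e : ℕ → ℂ := fun j => Complex.exp (θ j * I) with he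
  -- the sign vertex sums
  set S : ℕ → ℂ := fun j => ∑ i ∈ range (n + 1), ((if j ≤ i then (1 : ℝ) else -1 : ℝ) : ℂ) * w i
    with hS
  have hSn : ∀ j, ‖S j‖ ≤ C := by
    intro j
    apply norm_signed_le (range (n + 1)) w (fun i => if j ≤ i then (1 : ℝ) else -1) _ C h
    intro i _
    split_ifs <;> simp
  have hC : 0 ≤ C := le_trans (norm_nonneg _) (hSn 0)
  have hdiff : ∀ j ∈ range (n + 1), S j - S (j + 1) = 2 * w j := by
    intro j hj
    rw [hS]
    simp only
    rw [← Finset.sum_sub_distrib]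
    rw [Finset.sum_eq_single j]
    · simp; ring
    · intro b _ hb
      have : (j ≤ b) ↔ (j + 1 ≤ b) := by omega
      simp only [this, sub_self]
    · intro hj'; exact absurd hj hj'
  have hlast : S (n + 1) = - S 0 := by
    rw [hS]
    simp only
    rw [← Finset.sum_neg_distrib]
    apply Finset.sum_congr rfl
    intro i hi
    have : ¬ (n + 1 ≤ i) := by have := mem_range.mp hi; omega
    simp [this]
  have hen : ∀ j, ‖e j‖ = 1 := fun j => Complex.norm_exp_ofReal_mul_I _
  have hwe : ∀ j, ρ j = rip (w j) (e j) := by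
    intro j
    have : rip (w j) (e j) = ρ j * rip (e j) (e j) := by
      simp only [hw, he, rip_eq]
      simp
      ring
    rw [this, rip_self, hen]
    ring
  have hP : ∑ j ∈ range (n + 1), ρ j
      = (1 / 2) * ∑ j ∈ range (n + 1), (rip (S j) (e j) - rip (S (j + 1)) (e j)) := by
    rw [Finset.mul_sum]
    apply Finset.sum_congr rfl
    intro j hj
    rw [← rip_sub_left, hdiff j hj, hwe j]
    simp only [rip_eq]
    simp
    ring
  have hAbel : ∑ j ∈ range (n + 1), (rip (S j) (e j) - rip (S (j + 1)) (e j))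
      = rip (S 0) (e 0 + e n) + ∑ j ∈ range n, rip (S (j + 1)) (e (j + 1) - e j) := by
    have h1 : ∑ j ∈ range (n + 1), rip (S j) (e j)
        = rip (S 0) (e 0) + ∑ j ∈ range n, rip (S (j + 1)) (e (j + 1)) := by
      rw [Finset.sum_range_succ', add_comm]
    have h2 : ∑ j ∈ range (n + 1), rip (S (j + 1)) (e j)
        = ∑ j ∈ range n, rip (S (j + 1)) (e j) - rip (S 0) (e n) := by
      rw [Finset.sum_range_succ, hlast, rip_neg_left]
      ring
    rw [Finset.sum_sub_distrib, h1, h2, rip_add_right]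
    have h3 : ∑ j ∈ range n, rip (S (j + 1)) (e (j + 1) - e j)
        = ∑ j ∈ range n, rip (S (j + 1)) (e (j + 1)) - ∑ j ∈ range n, rip (S (j + 1)) (e j) := by
      rw [← Finset.sum_sub_distrib]
      exact Finset.sum_congr rfl (fun j _ => rip_sub_right _ _ _)
    rw [h3]
    ring
  have hθpi : ∀ j ≤ n, θ j < Real.pi := fun j hj => lt_of_le_of_lt (hmono hj) hpi
  have hθ0 : ∀ j, 0 ≤ θ j := fun j => le_trans h0 (hmono (Nat.zero_le j))
  have hb0 : rip (S 0) (e 0 + e n) ≤ C * (2 * Real.sin ((Real.pi - (θ n - θ 0)) / 2)) := by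
    refine le_trans (rip_le _ _) ?_
    rw [norm_exp_add_exp (θ 0) (θ n) (hmono (Nat.zero_le n)) (by linarith)]
    apply mul_le_mul_of_nonneg_right (hSn 0)
    rw [← norm_exp_add_exp (θ 0) (θ n) (hmono (Nat.zero_le n)) (by linarith)]
    exact norm_nonneg _
  have hbj : ∀ j ∈ range n, rip (S (j + 1)) (e (j + 1) - e j)
      ≤ C * (2 * Real.sin ((θ (j + 1) - θ j) / 2)) := by
    intro j hj
    have hj' := mem_range.mp hj
    have hle : θ (j + 1) - θ j ≤ 2 * Real.pi := by
      have := hθpi (j + 1) (by omega)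
      have := hθ0 j
      linarith [Real.pi_pos]
    refine le_trans (rip_le _ _) ?_
    rw [norm_exp_sub_exp (θ j) (θ (j + 1)) (hmono (Nat.le_succ j)) hle]
    apply mul_le_mul_of_nonneg_right (hSn _)
    rw [← norm_exp_sub_exp (θ j) (θ (j + 1)) (hmono (Nat.le_succ j)) hle]
    exact norm_nonneg _
  -- Jensen
  set γ : ℕ → ℝ := fun j => if j = n then Real.pi - (θ n - θ 0) else θ (j + 1) - θ j with hγ
  have hγmem : ∀ j ∈ range (n + 1), γ j / 2 ∈ Set.Icc 0 Real.pi := by
    intro j hj
    have hj' := mem_range.mp hj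
    simp only [hγ]
    split_ifs with h1
    · have := hθ0 0
      have := hmono (Nat.zero_le n)
      constructor <;> linarith [Real.pi_pos]
    · have := hθpi (j + 1) (by omega)
      have := hθ0 j
      have := hmono (Nat.le_succ j)
      constructor
      · linarith
      · linarith [Real.pi_pos]
  have hγsum : ∑ j ∈ range (n + 1), γ j / 2 = Real.pi / 2 := by
    rw [Finset.sum_range_succ]
    have h1 : ∑ j ∈ range n, γ j / 2 = (θ n - θ 0) / 2 := by
      rw [← Finset.sum_div]
      congr 1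
      rw [← Finset.sum_range_sub θ n]
      apply Finset.sum_congr rfl
      intro j hj
      have : j ≠ n := by have := mem_range.mp hj; omega
      simp [hγ, this]
    rw [h1]
    simp only [hγ, if_true]
    ring
  have hJ : ∑ j ∈ range (n + 1), Real.sin (γ j / 2)
      ≤ (n + 1 : ℕ) * Real.sin (Real.pi / (2 * (n + 1 : ℕ))) := by
    have hconc := strictConcaveOn_sin_Icc.concaveOn
    have hn1 : (0 : ℝ) < ((n + 1 : ℕ) : ℝ) := by positivity
    have := hconc.le_map_sum (t := range (n + 1)) (w := fun _ => 1 / ((n + 1 : ℕ) : ℝ))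
      (p := fun j => γ j / 2) (fun _ _ => by positivity)
      (by rw [Finset.sum_const, card_range, nsmul_eq_mul]; field_simp) hγmem
    simp only [smul_eq_mul] at this
    rw [← Finset.mul_sum, ← Finset.mul_sum, hγsum] at this
    rw [one_div, inv_mul_le_iff₀ hn1] at this
    have harg : Real.pi / (2 * ((n + 1 : ℕ) : ℝ)) = (((n + 1 : ℕ) : ℝ))⁻¹ * (Real.pi / 2) := by
      field_simp
    rw [harg]
    exact this
  calc ∑ j ∈ range (n + 1), ρ j
      = (1 / 2) * (rip (S 0) (e 0 + e n) + ∑ j ∈ range n, rip (S (j + 1)) (e (j + 1) - e j)) := by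
        rw [hP, hAbel]
    _ ≤ (1 / 2) * (C * (2 * Real.sin ((Real.pi - (θ n - θ 0)) / 2))
          + ∑ j ∈ range n, C * (2 * Real.sin ((θ (j + 1) - θ j) / 2))) := by
        apply mul_le_mul_of_nonneg_left _ (by norm_num)
        exact add_le_add hb0 (Finset.sum_le_sum hbj)
    _ = C * ∑ j ∈ range (n + 1), Real.sin (γ j / 2) := by
        rw [Finset.sum_range_succ]
        have h1 : ∑ j ∈ range n, Real.sin (γ j / 2) = ∑ j ∈ range n, Real.sin ((θ (j + 1) - θ j) / 2) := by
          apply Finset.sum_congr rfl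
          intro j hj
          have : j ≠ n := by have := mem_range.mp hj; omega
          simp [hγ, this]
        rw [h1]
        simp only [hγ, if_true]
        rw [← Finset.mul_sum, ← Finset.mul_sum]
        ring
    _ ≤ C * ((n + 1 : ℕ) * Real.sin (Real.pi / (2 * (n + 1 : ℕ)))) :=
        mul_le_mul_of_nonneg_left hJ hC

/-- The angle modulo `π`, in `[0, π)`. -/
noncomputable def halfArg (v : ℂ) : ℝ :=
  if v.arg < 0 then v.arg + Real.pi else if v.arg = Real.pi then 0 else v.arg

lemma halfArg_nonneg (v : ℂ) : 0 ≤ halfArg v := by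
  unfold halfArg
  have := Complex.neg_pi_lt_arg v
  split_ifs with h1 h2
  · linarith
  · exact le_refl _
  · linarith

lemma halfArg_lt_pi (v : ℂ) : halfArg v < Real.pi := by
  unfold halfArg
  have := Complex.arg_le_pi v
  split_ifs with h1 h2
  · linarith
  · exact Real.pi_pos
  · exact lt_of_le_of_ne this h2

lemma abs_rip_halfArg (v u : ℂ) :
    |rip ((‖v‖ : ℂ) * Complex.exp (halfArg v * I)) u| = |rip v u| := by
  have hv : (‖v‖ : ℂ) * Complex.exp (v.arg * I) = v := Complex.norm_mul_exp_arg_mul_I v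
  unfold halfArg
  split_ifs with h1 h2
  · have : (‖v‖ : ℂ) * Complex.exp (((v.arg + Real.pi : ℝ) : ℂ) * I) = -v := by
      push_cast
      rw [add_mul, Complex.exp_add, Complex.exp_pi_mul_I, mul_neg_one, mul_neg, hv]
    rw [this, rip_neg_left, abs_neg]
  · have : (‖v‖ : ℂ) * Complex.exp (((0 : ℝ) : ℂ) * I) = -v := by
      rw [h2, Complex.exp_pi_mul_I] at hv
      simp
      rw [← hv]
      simp
    rw [this, rip_neg_left, abs_neg]
  · rw [hv]

/-- Reinhardt's bound, abstract form. -/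
theorem reinhardt (n : ℕ) (v : Fin n → ℂ) (C : ℝ)
    (h : ∀ u : ℂ, ∑ k, |rip (v k) u| ≤ C * ‖u‖) :
    ∑ k, ‖v k‖ ≤ C * (n * Real.sin (Real.pi / (2 * n))) := by
  rcases Nat.eq_zero_or_pos n with rfl | hn
  · simp
  obtain ⟨m, rfl⟩ : ∃ m, n = m + 1 := ⟨n - 1, by omega⟩
  set σ := Tuple.sort (fun k => halfArg (v k)) with hσ
  have hmono : Monotone (fun k => halfArg (v (σ k))) :=
    Tuple.monotone_sort (fun k => halfArg (v k))
  have hlt : ∀ j : ℕ, min j m < m + 1 := fun j => by
    have := min_le_right j m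
    omega
  set g : ℕ → Fin (m + 1) := fun j => ⟨min j m, hlt j⟩ with hg
  have hgmono : Monotone g := by
    intro a b hab
    simp only [hg, Fin.mk_le_mk]
    exact min_le_min_right m hab
  have hsumconv : ∀ F : Fin (m + 1) → ℝ, ∑ j ∈ range (m + 1), F (σ (g j)) = ∑ k, F k := by
    intro F
    rw [← Equiv.sum_comp σ F, Finset.sum_range]
    apply Finset.sum_congr rfl
    intro i _
    congr 2
    simp only [hg]
    ext
    simp only
    omega
  have key := sorted_bound m (fun j => ‖v (σ (g j))‖) (fun j => halfArg (v (σ (g j))))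
    (fun j => norm_nonneg _) (fun a b hab => hmono (hgmono hab)) (halfArg_nonneg _)
    (halfArg_lt_pi _) C ?_
  · rw [← hsumconv (fun k => ‖v k‖)]
    exact key
  · intro u
    refine le_trans (le_of_eq ?_) (h u)
    rw [← hsumconv (fun k => |rip (v k) u|)]
    apply Finset.sum_congr rfl
    intro j _
    exact abs_rip_halfArg _ _

end Pool.Agent.RegPoly
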