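import Pool.Agent.RegPoly.Reduction

/-!
Trigonometric inequality used for seven points.
-/

namespace Pool.Agent.RegPoly

open Real

lemma cos_tangent {a x : ℝ} (ha0 : 0 ≤ a) (ha : a ≤ π / 2) (hx0 : 0 ≤ x) (hx : x ≤ π / 2) :
    cos x ≤ cos a - sin a * (x - a) := by
  have hsa : 0 ≤ sin a := sin_nonneg_of_nonneg_of_le_pi ha0 (by linarith [pi_pos])
  have hsx : 0 ≤ sin x := sin_nonneg_of_nonneg_of_le_pi hx0 (by linarith [pi_pos])
  rcases le_total x a with h | h
  · -- cos x - cos a = ∫_x^a sin ≤ (a - x) sin a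
    have h1 : cos x - cos a = 2 * sin ((x + a) / 2) * sin ((a - x) / 2) := by
      rw [cos_sub_cos]
      rw [show (x - a) / 2 = -((a - x) / 2) by ring, sin_neg]; ring
    have h2 : sin ((a - x) / 2) ≤ (a - x) / 2 := sin_le (by linarith)
    have h3 : sin ((x + a) / 2) ≤ sin a :=
      sin_le_sin_of_le_of_le_pi_div_two (by linarith [pi_pos]) ha (by linarith)
    have h4 : 0 ≤ sin ((x + a) / 2) :=
      sin_nonneg_of_nonneg_of_le_pi (by linarith) (by linarith [pi_pos])
    have h5 : 0 ≤ sin ((a - x) / 2) :=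
      sin_nonneg_of_nonneg_of_le_pi (by linarith) (by linarith [pi_pos])
    nlinarith
  · have h1 : cos a - cos x = 2 * sin ((x + a) / 2) * sin ((x - a) / 2) := by
      rw [cos_sub_cos]
      rw [show (a - x) / 2 = -((x - a) / 2) by ring, sin_neg]
      rw [show (a + x) / 2 = (x + a) / 2 by ring]; ring
    -- use  sin((x+a)/2) ≥ sin a cos((x-a)/2), then  2 cos d sin d = sin 2d  … go through
    -- the identity cos a - cos x - sin a (x - a) = ...
    by_contra hcon
    push Not at hcon
    -- cos x = cos a cos (x-a) - sin a sin (x-a)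
    have e1 : cos x = cos a * cos (x - a) - sin a * sin (x - a) := by
      rw [← cos_add]; congr 1; ring
    have hd0 : 0 ≤ x - a := by linarith
    -- mean value type argument: g(t) = cos t + sin a * t is antitone on [a, π/2]
    have hanti : AntitoneOn (fun t => cos t + sin a * t) (Set.Icc a (π / 2)) := by
      apply antitoneOn_of_deriv_nonpos (convex_Icc _ _)
      · fun_prop
      · fun_prop
      · intro t ht
        rw [interior_Icc] at ht
        have : deriv (fun t => cos t + sin a * t) t = - sin t + sin a := by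
          have hd : HasDerivAt (fun t => cos t + sin a * t) (- sin t + sin a * 1) t :=
            (hasDerivAt_cos t).add ((hasDerivAt_id t).const_mul (sin a))
          rw [hd.deriv, mul_one]
        rw [this]
        have : sin a ≤ sin t :=
          sin_le_sin_of_le_of_le_pi_div_two (by linarith [pi_pos]) ht.2.le ht.1.le
        linarith
    have := hanti (Set.left_mem_Icc.mpr ha) ⟨h, hx⟩ h
    simp only at this
    nlinarith

lemma cos_le_exp_tangent {a x : ℝ} (ha0 : 0 ≤ a) (ha : a < π / 2) (hx0 : 0 ≤ x) (hx : x ≤ π / 2) :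
    cos x ≤ cos a * exp (-(tan a * (x - a))) := by
  have hc : 0 < cos a := cos_pos_of_mem_Ioo ⟨by linarith [pi_pos], ha⟩
  have h1 := cos_tangent ha0 ha.le hx0 hx
  have h2 : 1 - tan a * (x - a) ≤ exp (-(tan a * (x - a))) := by
    have := add_one_le_exp (-(tan a * (x - a))); linarith
  have h3 : cos a * (1 - tan a * (x - a)) = cos a - sin a * (x - a) := by
    rw [tan_eq_sin_div_cos]; field_simp
  calc cos x ≤ cos a - sin a * (x - a) := h1
    _ = cos a * (1 - tan a * (x - a)) := h3.symm
    _ ≤ _ := mul_le_mul_of_nonneg_left h2 hc.le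

lemma pi_div_seven_bounds : 0.4487 < π / 7 ∧ π / 7 < 0.4489 := by
  constructor
  · have := pi_gt_d4; norm_num at this ⊢; linarith
  · have := pi_lt_d4; norm_num at this ⊢; linarith

lemma cos_pi_div_seven_lb : 0.8992 < cos (π / 7) := by
  have h1 := one_sub_sq_div_two_le_cos (x := π / 7)
  have h2 := pi_div_seven_bounds
  nlinarith

lemma tan_pi_div_seven_bounds : 0.4487 < tan (π / 7) ∧ tan (π / 7) < 0.4993 := by
  have h2 := pi_div_seven_bounds
  have hpi := pi_pos
  constructor
  · exact lt_trans h2.1 (lt_tan (by positivity) (by linarith))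
  · have hc := cos_pi_div_seven_lb
    rw [tan_eq_sin_div_cos, div_lt_iff₀ (by linarith)]
    have : sin (π / 7) < π / 7 := sin_lt (by positivity)
    nlinarith

lemma exp_bound_num : exp (5 * π / 7 * tan (π / 7)) ≤ 3.1 := by
  have h1 : 5 * π / 7 * tan (π / 7) ≤ 1 + 0.1207 := by
    have := pi_div_seven_bounds
    have := tan_pi_div_seven_bounds
    have e : 5 * π / 7 * tan (π / 7) = 5 * (π / 7) * tan (π / 7) := by ring
    rw [e]
    nlinarith
  have h2 : exp (5 * π / 7 * tan (π / 7)) ≤ exp (1 + 0.1207) := exp_le_exp.mpr h1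
  refine h2.trans ?_
  rw [exp_add]
  have h3 : exp (0.1207 : ℝ) ≤ 1 / (1 - 0.1207) := by
    rw [le_div_iff₀ (by norm_num)]
    have h4 : 1 - 0.1207 ≤ exp (-(0.1207 : ℝ)) := by
      have := add_one_le_exp (-(0.1207 : ℝ)); linarith
    calc exp (0.1207 : ℝ) * (1 - 0.1207) ≤ exp (0.1207 : ℝ) * exp (-(0.1207 : ℝ)) :=
          mul_le_mul_of_nonneg_left h4 (exp_pos _).le
      _ = 1 := by rw [← exp_add]; simp
  have h5 := exp_one_lt_d9
  calc exp 1 * exp (0.1207 : ℝ) ≤ 2.7182818286 * (1 / (1 - 0.1207)) := by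
        apply mul_le_mul h5.le h3 (exp_pos _).le (by norm_num)
    _ ≤ 3.1 := by norm_num

/-- The key inequality for two consecutive sides. -/
lemma key_seven {ε y : ℝ} (h0 : 0 ≤ ε) (h1 : ε ≤ π) (hy0 : 0 ≤ y) (hy1 : y ≤ 1) :
    y * (1 - y * sin (ε / 2) ^ 2)
      ≤ (cos (π / 7) * exp (-(tan (π / 7) * (ε / 2 - π / 7)))) ^ 2 := by
  have hpi := pi_pos
  rcases le_total ε (π / 2) with h | h
  · -- sin² ≤ 1/2
    have hS : sin (ε / 2) ^ 2 ≤ 1 / 2 := by
      have e : sin (ε / 2) ^ 2 = (1 - cos ε) / 2 := by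
        have := cos_sq' (ε / 2)
        have h2 := cos_two_mul (ε / 2)
        rw [show 2 * (ε / 2) = ε by ring] at h2
        nlinarith [sin_sq_add_cos_sq (ε / 2)]
      rw [e]
      have : 0 ≤ cos ε := cos_nonneg_of_mem_Icc ⟨by linarith, h⟩
      linarith
    have hS0 : 0 ≤ sin (ε / 2) ^ 2 := sq_nonneg _
    have h2 : y * (1 - y * sin (ε / 2) ^ 2) ≤ cos (ε / 2) ^ 2 := by
      have e : cos (ε / 2) ^ 2 = 1 - sin (ε / 2) ^ 2 := by
        linarith [sin_sq_add_cos_sq (ε / 2)]
      rw [e]
      have : 0 ≤ (1 - y) * (1 - sin (ε / 2) ^ 2 * (1 + y)) := by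
        apply mul_nonneg (by linarith)
        nlinarith
      nlinarith
    refine h2.trans ?_
    apply pow_le_pow_left₀
    · exact cos_nonneg_of_mem_Icc ⟨by linarith, by linarith⟩
    · exact cos_le_exp_tangent (by positivity) (by linarith) (by linarith) (by linarith)
  · -- ε ∈ [π/2, π]
    set u : ℝ := π - ε with hu
    have hu0 : 0 ≤ u := by linarith
    have hu1 : u ≤ π / 2 := by linarith
    set T : ℝ := tan (π / 7) with hT
    have hTb := tan_pi_div_seven_bounds
    have hCb := cos_pi_div_seven_lb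
    set c : ℝ := cos (π / 7) with hc
    have hS : sin (ε / 2) ^ 2 = (1 + cos u) / 2 := by
      have h2 := cos_two_mul (ε / 2)
      rw [show 2 * (ε / 2) = ε by ring] at h2
      have h3 : cos u = - cos ε := by rw [hu, cos_pi_sub]
      nlinarith [sin_sq_add_cos_sq (ε / 2)]
    have hcosu : 1 - 2 / π * u ≤ cos u := by
      have := mul_le_sin (x := π / 2 - u) (by linarith) (by linarith)
      rw [sin_pi_div_two_sub] at this
      have e : 2 / π * (π / 2 - u) = 1 - 2 / π * u := by field_simp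
      linarith
    have hcosu0 : 0 ≤ cos u := cos_nonneg_of_mem_Icc ⟨by linarith, hu1⟩
    have hSpos : 0 < sin (ε / 2) ^ 2 := by rw [hS]; linarith
    set S : ℝ := sin (ε / 2) ^ 2 with hSdef
    have h2 : y * (1 - y * S) ≤ 1 / (4 * S) := by
      rw [le_div_iff₀ (by positivity)]
      nlinarith [sq_nonneg (1 - 2 * y * S)]
    refine h2.trans ?_
    rw [div_le_iff₀ (by positivity)]
    -- rewrite the exponential
    have e1 : (c * exp (-(T * (ε / 2 - π / 7)))) ^ 2
        = c ^ 2 * (exp (T * u) / exp (5 * π / 7 * T)) := by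
      rw [mul_pow, ← exp_nat_mul, ← exp_sub]
      congr 2
      rw [hu]; push_cast; ring
    rw [e1]
    have hE := exp_bound_num
    rw [← hT] at hE
    have hEpos := exp_pos (5 * π / 7 * T)
    have hTu : 1 + T * u + (T * u) ^ 2 / 2 ≤ exp (T * u) :=
      quadratic_le_exp_of_nonneg (mul_nonneg (by linarith) hu0)
    set v : ℝ := 2 / π * u with hv
    have hv0 : 0 ≤ v := by positivity
    have hv1 : v ≤ 1 := by
      rw [hv, div_mul_eq_mul_div, div_le_one hpi]; linarith
    have huv : u = π / 2 * v := by rw [hv]; field_simp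
    have ha : 0.7 * v ≤ T * u := by
      rw [huv]
      have : 0.7 ≤ T * (π / 2) := by
        have := pi_gt_d4
        nlinarith
      nlinarith
    have hTu2 : 1 + 0.7 * v + (0.7 * v) ^ 2 / 2 ≤ exp (T * u) := by
      have : (0.7 * v) ^ 2 ≤ (T * u) ^ 2 := pow_le_pow_left₀ (by positivity) ha 2
      linarith
    have hprod : 1.94 ≤ (2 - v) * exp (T * u) := by
      have h3 : (2 - v) * (1 + 0.7 * v + (0.7 * v) ^ 2 / 2) ≤ (2 - v) * exp (T * u) :=
        mul_le_mul_of_nonneg_left hTu2 (by linarith)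
      refine le_trans ?_ h3
      nlinarith [mul_nonneg hv0 (sub_nonneg.mpr hv1), mul_nonneg (mul_nonneg hv0 hv0) (sub_nonneg.mpr hv1)]
    have h4 : 2 * 1.94 ≤ exp (T * u) * (4 * S) := by
      rw [hS]
      have : (2 - v) * exp (T * u) ≤ (1 + cos u) * exp (T * u) :=
        mul_le_mul_of_nonneg_right (by linarith) (exp_pos _).le
      linarith
    have h5 : 0.808 ≤ c ^ 2 := by nlinarith
    have h6 : c ^ 2 * (exp (T * u) / exp (5 * π / 7 * T)) * (4 * S)
        = c ^ 2 * (exp (T * u) * (4 * S)) / exp (5 * π / 7 * T) := by ring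
    rw [h6, le_div_iff₀ hEpos]
    have h7 : 0.808 * (2 * 1.94) ≤ c ^ 2 * (exp (T * u) * (4 * S)) :=
      mul_le_mul h5 h4 (by norm_num) (by positivity)
    have h8 : (3.1 : ℝ) ≤ 0.808 * (2 * 1.94) := by norm_num
    linarith

end Pool.Agent.RegPoly
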